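import Mathlib
import Pool.Agent.Q127.KI.Stm

/-!
# Project KI, job FRQ: uniform frequencies in the subshift
-/

set_option autoImplicit false

namespace Pool.Agent.Q208.KI_FRQ

open Pool.Agent.Q127.KI Finset

theorem sh_iter (n : ℕ) : ∀ w : ℤ → Bool, sh^[n] w = tr n w := by
  induction n with
  | zero => intro w; funext z; simp [tr]
  | succ n ih =>
    intro w
    rw [Function.iterate_succ_apply, ih]
    funext z
    show w (z + (n : ℤ) + 1) = w (z + ((n + 1 : ℕ) : ℤ))
    congr 1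
    push_cast
    ring

theorem sum_blocks (f : ℕ → ℝ) (l n : ℕ) :
    ∑ i ∈ range (n * l), f i = ∑ j ∈ range n, ∑ i ∈ range l, f (j * l + i) := by
  induction n with
  | zero => simp
  | succ n ih => rw [Nat.succ_mul, Finset.sum_range_add, ih, sum_range_succ]

theorem card_le (l m : ℕ) : ((range l).filter fun i => ¬ i + m ≤ l).card ≤ m := by
  have h : ((range l).filter fun i => ¬ i + m ≤ l) ⊆ Ico (l - m) l := by
    intro i hi
    rw [mem_filter, mem_range] at hi
    rw [mem_Ico]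
    omega
  have h2 := card_le_card h
  rw [Nat.card_Ico] at h2
  omega

variable {m : ℕ} {g : (ℤ → Bool) → ℝ}

/-- (a) -/
theorem partA (h1 : ∀ w, |g w| ≤ 1)
    (h2 : ∀ w w' : ℤ → Bool, (∀ i : ℕ, i < m → w i = w' i) → g w = g w') (k : ℕ) (w : ℤ → Bool)
    (a : ℤ) (s : Fin (N k)) (hb : Blk k w a s) :
    |∑ i ∈ range (L k), g (tr (a + i) w) -
      ∑ i ∈ range (L k), g (tr (i : ℕ) fun z => ex k s z.toNat)| ≤ 2 * m := by
  rw [← sum_sub_distrib]
  have h3 : ∀ i ∈ range (L k), |g (tr (a + i) w) - g (tr (i : ℕ) fun z => ex k s z.toNat)| ≤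
      if ¬ i + m ≤ L k then (2 : ℝ) else 0 := by
    intro i hi
    by_cases hc : ¬ i + m ≤ L k
    · rw [if_pos hc]
      have e1 := h1 (tr (a + i) w)
      have e2 := h1 (tr (i : ℕ) fun z => ex k s z.toNat)
      have e3 := abs_sub (g (tr (a + i) w)) (g (tr (i : ℕ) fun z => ex k s z.toNat))
      linarith
    · rw [if_neg hc]
      have hc : i + m ≤ L k := not_not.1 hc
      have e : g (tr (a + i) w) = g (tr (i : ℕ) fun z => ex k s z.toNat) := by
        apply h2
        intro t ht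
        show w ((t : ℤ) + (a + i)) = ex k s ((t : ℤ) + (i : ℤ)).toNat
        have e1 := hb (t + i) (by omega)
        have e2 : ((t : ℤ) + (i : ℤ)).toNat = t + i := by omega
        rw [e2, ← e1]
        congr 1
        push_cast
        ring
      rw [e, sub_self, abs_zero]
  calc |∑ i ∈ range (L k), (g (tr (a + i) w) - g (tr (i : ℕ) fun z => ex k s z.toNat))|
      ≤ ∑ i ∈ range (L k), |g (tr (a + i) w) - g (tr (i : ℕ) fun z => ex k s z.toNat)| :=
        abs_sum_le_sum_abs _ _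
    _ ≤ ∑ i ∈ range (L k), if ¬ i + m ≤ L k then (2 : ℝ) else 0 := sum_le_sum h3
    _ = (((range (L k)).filter fun i => ¬ i + m ≤ L k).card : ℝ) * 2 := by
        rw [← sum_filter, sum_const, nsmul_eq_mul]
    _ ≤ 2 * m := by
        have := card_le (L k) m
        have : (((range (L k)).filter fun i => ¬ i + m ≤ L k).card : ℝ) ≤ m := by exact_mod_cast this
        linarith

/-- the sum over all the symbols -/
noncomputable def Gam (g : (ℤ → Bool) → ℝ) (k : ℕ) : ℝ :=
  ∑ s : Fin (N k), ∑ i ∈ range (L k), g (tr (i : ℕ) fun z => ex k s z.toNat)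

/-- (b) -/
theorem partB (hs : S_sub) (h1 : ∀ w, |g w| ≤ 1)
    (h2 : ∀ w w' : ℤ → Bool, (∀ i : ℕ, i < m → w i = w' i) → g w = g w') (k : ℕ) (w : ℤ → Bool)
    (a : ℤ) (s : Fin (N (k + 1))) (hb : Blk (k + 1) w a s) :
    |∑ i ∈ range (L (k + 1)), g (tr (a + i) w) - Gam g k| ≤ 2 * m * N k := by
  have e1 : ∑ i ∈ range (L (k + 1)), g (tr (a + i) w) =
      ∑ j : Fin (N k), ∑ i ∈ range (L k), g (tr (a + (j : ℕ) * L k + i) w) := by
    show ∑ i ∈ range (N k * L k), g (tr (a + i) w) = _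
    rw [sum_blocks, ← Fin.sum_univ_eq_sum_range
      (fun j => ∑ i ∈ range (L k), g (tr (a + ((j * L k + i : ℕ) : ℤ)) w))]
    apply sum_congr rfl
    intro j _
    apply sum_congr rfl
    intro i _
    congr 2
    push_cast
    ring
  have e2 : Gam g k = ∑ j : Fin (N k), ∑ i ∈ range (L k),
      g (tr (i : ℕ) fun z => ex k (e k s j) z.toNat) :=
    (Equiv.sum_comp (e k s) fun s => ∑ i ∈ range (L k), g (tr (i : ℕ) fun z => ex k s z.toNat)).symm
  rw [e1, e2, ← sum_sub_distrib]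
  calc _ ≤ ∑ j : Fin (N k), |∑ i ∈ range (L k), g (tr (a + (j : ℕ) * L k + i) w) -
        ∑ i ∈ range (L k), g (tr (i : ℕ) fun z => ex k (e k s j) z.toNat)| :=
        abs_sum_le_sum_abs _ _
    _ ≤ ∑ j : Fin (N k), (2 * m : ℝ) :=
        sum_le_sum fun j _ => partA h1 h2 k w _ _ (hs k w a s hb j)
    _ = 2 * m * N k := by
        rw [sum_const, card_univ, Fintype.card_fin, nsmul_eq_mul]
        ring

/-- The offset can be taken in `[0, L k)`. -/
theorem offset (k : ℕ) (w : ℤ → Bool) (h : w ∈ Sk k) :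
    ∃ r : ℕ, r ≤ L k ∧ ∀ j : ℕ, ∃ s : Fin (N k), Blk k w (r + (j : ℤ) * L k) s := by
  obtain ⟨r, hr⟩ := h
  have hL : (0 : ℤ) < L k := by exact_mod_cast L_pos k
  have h0 : 0 ≤ r % (L k : ℤ) := Int.emod_nonneg _ hL.ne'
  have h1 : r % (L k : ℤ) < L k := Int.emod_lt_of_pos _ hL
  refine ⟨(r % (L k : ℤ)).toNat, by omega, fun j => ?_⟩
  obtain ⟨s, hs⟩ := hr (j - r / (L k : ℤ))
  refine ⟨s, ?_⟩
  have e : ((r % (L k : ℤ)).toNat : ℤ) + (j : ℤ) * L k = r + (j - r / (L k : ℤ)) * L k := by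
    rw [Int.toNat_of_nonneg h0]
    have := Int.emod_add_mul_ediv r (L k : ℤ)
    linarith
  rw [e]
  exact hs

theorem abs_sum_le (f : ℕ → ℝ) (hf : ∀ i, |f i| ≤ 1) (n : ℕ) : |∑ i ∈ range n, f i| ≤ n := by
  calc |∑ i ∈ range n, f i| ≤ ∑ i ∈ range n, |f i| := abs_sum_le_sum_abs _ _
    _ ≤ ∑ i ∈ range n, (1 : ℝ) := sum_le_sum fun i _ => hf i
    _ = n := by simp

/-- FRQ -/
theorem frq (h : S_sub) : S_frq := by
  intro m g h1 h2 k
  refine ⟨Gam g k, fun w hw q => ?_⟩
  obtain ⟨r, hr, hb⟩ := offset (k + 1) w (Set.mem_iInter.1 hw (k + 1))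
  set l := L (k + 1) with hl
  have e0 : ∑ i ∈ range ((q + 1) * l), g (sh^[i] w) =
      ∑ i ∈ range ((q + 1) * l), g (tr (i : ℕ) w) :=
    sum_congr rfl fun i _ => by rw [sh_iter]
  have e1 : (q + 1) * l = r + q * l + (l - r) := by
    have : (q + 1) * l = q * l + l := by ring
    omega
  rw [e0, e1, Finset.sum_range_add, Finset.sum_range_add, sum_blocks]
  have b1 := abs_sum_le (fun i => g (tr (i : ℕ) w)) (fun i => h1 _) r
  have b2 := abs_sum_le (fun i => g (tr ((r + q * l + i : ℕ) : ℤ) w)) (fun i => h1 _) (l - r)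
  have b3 : |∑ j ∈ range q, ∑ i ∈ range l, g (tr ((r + (j * l + i) : ℕ) : ℤ) w) - q * Gam g k| ≤
      q * (2 * m * N k) := by
    have e2 : (q : ℝ) * Gam g k = ∑ j ∈ range q, Gam g k := by simp
    rw [e2, ← sum_sub_distrib]
    calc _ ≤ ∑ j ∈ range q, |∑ i ∈ range l, g (tr ((r + (j * l + i) : ℕ) : ℤ) w) - Gam g k| :=
          abs_sum_le_sum_abs _ _
      _ ≤ ∑ j ∈ range q, (2 * m * N k : ℝ) := by
          apply sum_le_sum
          intro j _
          obtain ⟨s, hs⟩ := hb j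
          have := partB h h1 h2 k w _ s hs
          rw [← hl] at this
          have e3 : ∑ i ∈ range l, g (tr ((r + (j * l + i) : ℕ) : ℤ) w) =
              ∑ i ∈ range l, g (tr ((r : ℤ) + (j : ℤ) * l + i) w) := by
            apply sum_congr rfl
            intro i _
            congr 2
            push_cast
            ring
          rw [e3]
          exact this
      _ = q * (2 * m * N k) := by simp
  have e4 : ((l - r : ℕ) : ℝ) = l - r := by
    rw [Nat.cast_sub hr]
  rw [e4] at b2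
  rw [abs_le] at b1 b2 b3 ⊢
  constructor <;> linarith [b1.1, b1.2, b2.1, b2.2, b3.1, b3.2]

end Pool.Agent.Q208.KI_FRQ
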