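import Mathlib
import Pool.Agent.Q16.SQ.Stm5

/-!
# Project SQ, job SUMW: the winding identity for the images of the tiles
-/

set_option autoImplicit false
noncomputable section
open scoped BigOperators
open Pool.Agent.Helper549.Tri

namespace Pool.Agent.Q208.SQ_SUMW

open Q16.SQ

theorem norm_rt (M : ℕ) (k : ℤ) : ‖rt M k‖ = 1 := by
  have h : rt M k = Complex.exp (((2 * Real.pi * k / M : ℝ) : ℂ) * Complex.I) := by
    unfold rt
    congr 1
    push_cast
    ring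
  rw [h, Complex.norm_exp_ofReal_mul_I]

open Classical in
/-- the function for S_LINESUM -/
def H (Φ : ℂ → ℂ) (w : ℂ) (u : ℂ) (s : ℝ) (z : ℂ) : ℝ :=
  if (Φ u).im ≠ 0 ∧ w.re < (Φ (Complex.I * s * u)).re +
      (w.im - (Φ (Complex.I * s * u)).im) * (Φ u).re / (Φ u).im then
    (if w.im < (Φ z).im then (1 : ℝ) else 0) else 0

theorem semi_zero {M : ℕ} {j : ℤ} {Φ : ℂ → ℂ} (h : Semi M j Φ) : Φ 0 = 0 := by
  have h1 := h.1 0 0
  rw [add_zero] at h1
  have h2 : Φ 0 + Φ 0 = Φ 0 + 0 := by rw [add_zero]; exact h1.symm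
  exact add_left_cancel h2

theorem semi_neg {M : ℕ} {j : ℤ} {Φ : ℂ → ℂ} (h : Semi M j Φ) (z : ℂ) : Φ (-z) = -Φ z := by
  have h1 := h.1 z (-z)
  rw [add_neg_cancel, semi_zero h] at h1
  exact (neg_eq_of_add_eq_zero_right h1.symm).symm

theorem H_even {M : ℕ} {j : ℤ} {Φ : ℂ → ℂ} (h : Semi M j Φ) (w u : ℂ) (s : ℝ) (z : ℂ) :
    H Φ w (-u) (-s) z = H Φ w u s z := by
  have e1 : Complex.I * ((-s : ℝ) : ℂ) * (-u) = Complex.I * s * u := by
    push_cast
    ring
  have e2 : ∀ a b c : ℝ, a * (-b) / (-c) = a * b / c := by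
    intro a b c
    rw [mul_neg, neg_div_neg_eq]
  unfold H
  rw [e1, semi_neg h, Complex.neg_re, Complex.neg_im, e2]
  simp only [ne_eq, neg_eq_zero]

/-- the values on the lines -/
theorem semi_line {M : ℕ} {j : ℤ} {Φ : ℂ → ℂ} (h : Semi M j Φ) (q : ℤ) (x : ℝ) :
    Φ ((x : ℂ) * rt M q) = (((Φ x).re : ℝ) : ℂ) * Φ (rt M q) := by
  have e1 : Φ (rt M q) = rt M (j * q) := by
    have h1 := h.2.2.1 q 1
    rw [mul_one, h.2.2.2.2, mul_one] at h1
    exact h1
  have e2 := h.2.2.1 q x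
  have e3 : ((Φ x).re : ℂ) = Φ x := by
    apply Complex.ext
    · simp
    · rw [h.2.2.2.1 x]
      simp
  rw [mul_comm (x : ℂ), e2, e1, e3, mul_comm]

theorem key {M : ℕ} {j : ℤ} {Φ : ℂ → ℂ} (h : Semi M j Φ) (v : Fin 3 → ℂ) (k : Fin 3) (q : ℤ)
    (hq : dir v k = rt M q) (w : ℂ) :
    Cx (Φ (v (k + 1))) (Φ (v (k + 2)) - Φ (v (k + 1))) (Φ (v (k + 2))) w =
      H Φ w (dir v k) (lev v k) (v (k + 2)) - H Φ w (dir v k) (lev v k) (v (k + 1)) := by
  have hu : ‖dir v k‖ = 1 := by rw [hq, norm_rt]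
  have hℓ : len v k ≠ 0 := by
    intro h0
    unfold dir at hu
    rw [h0] at hu
    simp at hu
  have hp2 : v (k + 2) = v (k + 1) + (len v k : ℂ) * dir v k := by
    unfold dir
    have : (len v k : ℂ) ≠ 0 := by exact_mod_cast hℓ
    rw [mul_div_cancel₀ _ this]
    unfold sd
    ring
  have husq : (dir v k).re * (dir v k).re + (dir v k).im * (dir v k).im = 1 := by
    have h1 := Complex.normSq_eq_norm_sq (dir v k)
    rw [hu, Complex.normSq_apply] at h1
    linarith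
  set x : ℝ := (v (k + 1)).re * (dir v k).re + (v (k + 1)).im * (dir v k).im with hx
  have hp1 : v (k + 1) = (x : ℂ) * dir v k + Complex.I * (lev v k) * dir v k := by
    have hl : lev v k = (dir v k).re * (v (k + 1)).im - (dir v k).im * (v (k + 1)).re := rfl
    apply Complex.ext
    · simp only [Complex.add_re, Complex.mul_re, Complex.ofReal_re, Complex.ofReal_im,
        Complex.I_re, Complex.I_im, Complex.mul_im]
      rw [hl, hx]
      linear_combination (-(v (k + 1)).re) * husq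
    · simp only [Complex.add_im, Complex.mul_re, Complex.ofReal_re, Complex.ofReal_im,
        Complex.I_re, Complex.I_im, Complex.mul_im]
      rw [hl, hx]
      linear_combination (-(v (k + 1)).im) * husq
  have hΦ1 : Φ (v (k + 1)) = (((Φ x).re : ℝ) : ℂ) * Φ (dir v k) +
      Φ (Complex.I * (lev v k) * dir v k) := by
    conv_lhs => rw [hp1]
    rw [h.1]
    congr 1
    rw [hq]
    exact semi_line h q x
  have hΦ2 : Φ (v (k + 2)) = Φ (v (k + 1)) + (((Φ (len v k : ℂ)).re : ℝ) : ℂ) * Φ (dir v k) := by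
    rw [hp2, h.1]
    congr 1
    rw [hq]
    exact semi_line h q _
  have hr : (Φ (len v k : ℂ)).re ≠ 0 := by
    intro h0
    have h1 : Φ (len v k : ℂ) = 0 := by
      apply Complex.ext
      · rw [h0]; rfl
      · rw [h.2.2.2.1]; rfl
    have h2 : (len v k : ℂ) = 0 := h.2.1 (h1.trans (semi_zero h).symm)
    exact hℓ (by exact_mod_cast h2)
  have hd : Φ (v (k + 2)) - Φ (v (k + 1)) = (((Φ (len v k : ℂ)).re : ℝ) : ℂ) * Φ (dir v k) := by
    rw [hΦ2]
    ring
  set r : ℝ := (Φ (len v k : ℂ)).re with hrd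
  set u' : ℂ := Φ (dir v k) with hu'
  set b : ℂ := Φ (Complex.I * (lev v k) * dir v k) with hb
  have d1 : (Φ (v (k + 2)) - Φ (v (k + 1))).im = r * u'.im := by rw [hd]; simp
  have d2 : (Φ (v (k + 2)) - Φ (v (k + 1))).re = r * u'.re := by rw [hd]; simp
  have p1 : (Φ (v (k + 1))).re = (Φ x).re * u'.re + b.re := by rw [hΦ1]; simp
  have p2 : (Φ (v (k + 1))).im = (Φ x).re * u'.im + b.im := by rw [hΦ1]; simp
  have hc : ((Φ (v (k + 2)) - Φ (v (k + 1))).im ≠ 0 ∧ w.re < (Φ (v (k + 1))).re +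
      (w.im - (Φ (v (k + 1))).im) * (Φ (v (k + 2)) - Φ (v (k + 1))).re /
        (Φ (v (k + 2)) - Φ (v (k + 1))).im) ↔
      (u'.im ≠ 0 ∧ w.re < b.re + (w.im - b.im) * u'.re / u'.im) := by
    rw [d1, d2, p1, p2]
    by_cases h0 : u'.im = 0
    · simp [h0]
    · have e : (Φ x).re * u'.re + b.re + (w.im - ((Φ x).re * u'.im + b.im)) * (r * u'.re) /
          (r * u'.im) = b.re + (w.im - b.im) * u'.re / u'.im := by
        field_simp
        ring
      rw [e]
      simp [h0, hr]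
  unfold Cx H
  rw [← hu', ← hb]
  by_cases hcc : u'.im ≠ 0 ∧ w.re < b.re + (w.im - b.im) * u'.re / u'.im
  · rw [if_pos (hc.2 hcc), if_pos hcc, if_pos hcc]
  · rw [if_neg (fun h5 => hcc (hc.1 h5)), if_neg hcc, if_neg hcc, sub_zero]

/-- SUMW -/
theorem t_SUMW (h1 : S_LINESUM) (h2 : S_WIND) (h3 : S_IMG) (h4 : S_DDT) : S_SUMW := by
  intro N T t τ n a hD hN j Φ hj hΦ hv w hwT hwt
  have a1 := (h3 hD j Φ hj hΦ hv).1
  have a2 := h4 hD hN j Φ hj hΦ hv
  have e1 := fun i => h2 (fun m => Φ (t i m)) w (a1 i) (hwt i)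
  have e2 := h2 (fun m => Φ (T m)) w a2 hwT
  obtain ⟨hDis, _, _, _, _, _, hdt, hdT⟩ := hD
  rw [← e2, Finset.sum_congr rfl fun i _ => (e1 i).symm]
  have key1 : ∀ i k, Cx (Φ (t i (k + 1))) (Φ (t i (k + 2)) - Φ (t i (k + 1))) (Φ (t i (k + 2))) w =
      H Φ w (dir (t i) k) (lev (t i) k) (t i (k + 2)) -
        H Φ w (dir (t i) k) (lev (t i) k) (t i (k + 1)) := by
    intro i k
    obtain ⟨q, hq⟩ := hdt i k
    exact key hΦ (t i) k q hq w
  have key2 : ∀ k, Cx (Φ (T (k + 1))) (Φ (T (k + 2)) - Φ (T (k + 1))) (Φ (T (k + 2))) w =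
      H Φ w (dir T k) (lev T k) (T (k + 2)) - H Φ w (dir T k) (lev T k) (T (k + 1)) := by
    intro k
    obtain ⟨q, hq⟩ := hdT k
    exact key hΦ T k q hq w
  have e3 := h1 hDis (H Φ w) (fun u s z => H_even hΦ w u s z)
  calc _ = ∑ i, ∑ k : Fin 3, (H Φ w (dir (t i) k) (lev (t i) k) (t i (k + 2)) -
        H Φ w (dir (t i) k) (lev (t i) k) (t i (k + 1))) :=
        Finset.sum_congr rfl fun i _ => Finset.sum_congr rfl fun k _ => key1 i k
    _ = _ := e3
    _ = _ := (Finset.sum_congr rfl fun k _ => (key2 k)).symm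

end Pool.Agent.Q208.SQ_SUMW
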