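import Pool.Agent.Q16.XP.Stm

/-!
# Project XP (helper16), job B1
-/

set_option autoImplicit false

namespace Pool.Agent.Q208.XP_B1

open Q16.XP

theorem mf_mul {p a b : ℕ} (hp : p.Prime) (ha : a.minFac = p) (hb : b.minFac = p) (h1 : 1 < a) :
    (a * b).minFac = p := by
  apply le_antisymm
  · exact Nat.minFac_le_of_dvd hp.two_le (Dvd.dvd.mul_right (ha ▸ Nat.minFac_dvd a) b)
  · have hne : a * b ≠ 1 := by
      intro h
      have := Nat.eq_one_of_mul_eq_one_right h
      omega
    have hq := Nat.minFac_prime hne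
    rcases (Nat.Prime.dvd_mul hq).1 (Nat.minFac_dvd (a * b)) with h | h
    · calc p = a.minFac := ha.symm
        _ ≤ _ := Nat.minFac_le_of_dvd hq.two_le h
    · calc p = b.minFac := hb.symm
        _ ≤ _ := Nat.minFac_le_of_dvd hq.two_le h

theorem t_B1 (hD : S_D1) : S_B1 := by
  intro p a b hp h1 h2 ha hb hlt ⟨e1, e2, e3⟩
  have ha0 : a ≠ 0 := by omega
  have hb0 : b ≠ 0 := by omega
  have hexa : ex a = a.factorization p := by unfold ex; rw [ha]
  have hexb : ex b = b.factorization p := by unfold ex; rw [hb]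
  have h1' : 1 < a ^ b := Nat.one_lt_pow hb0 h1
  have hab : (a * b).minFac = p := mf_mul hp ha hb h1
  have hpow : (a ^ b).minFac = p := by rw [Nat.pow_minFac hb0, ha]
  have habb : (a ^ b * b).minFac = p := mf_mul hp hpow hb h1'
  have x1 : ex (a * b) = ex b + ex a := by
    rw [hexa, hexb]
    unfold ex
    rw [hab, Nat.factorization_mul ha0 hb0, Finsupp.add_apply, add_comm]
  have x2 : ex (a ^ b) = b * ex a := by
    rw [hexa]
    unfold ex
    rw [hpow, Nat.factorization_pow, Finsupp.smul_apply, smul_eq_mul]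
  have x3 : ex (a ^ b * b) = ex b + b * ex a := by
    rw [hexa, hexb]
    unfold ex
    rw [habb, Nat.factorization_mul (by omega) hb0, Finsupp.add_apply, Nat.factorization_pow,
      Finsupp.smul_apply, smul_eq_mul, add_comm]
  have pa : 0 < ex a := by
    rw [hexa]
    exact hp.factorization_pos_of_dvd ha0 (ha ▸ Nat.minFac_dvd a)
  have pb : 0 < ex b := by
    rw [hexb]
    exact hp.factorization_pos_of_dvd hb0 (hb ▸ Nat.minFac_dvd b)
  have hv : (b * ex a).factorization p = ex b + (ex a).factorization p := by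
    rw [Nat.factorization_mul hb0 (by omega), Finsupp.add_apply, hexb]
  have hdv : p ^ (ex a).factorization p ∣ ex a := Nat.ordProj_dvd _ _
  have y1 := hD p hp (G1 p) (ex b) (ex a) ((ex a).factorization p) pb pa hdv hlt
  have y2 := hD p hp (G1 p) (ex b) (b * ex a) ((ex a).factorization p) pb
    (Nat.mul_pos (by omega) pa) (Dvd.dvd.mul_left hdv b) hlt
  rw [hv] at y2
  unfold c1 at e1 e2 e3
  rw [hab, ha, x1, y1] at e1
  rw [hpow, ha, x2] at e2
  rw [habb, ha, x3, y2] at e3
  set l := Nat.log p (ex b) with hl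
  set d := ex b / p ^ l with hd
  have hpl : p ^ l ≤ ex b := Nat.pow_log_le_self p (by omega)
  have hpl0 : 0 < p ^ l := pow_pos hp.pos _
  have hd1 : 1 ≤ d := (Nat.one_le_div_iff hpl0).2 hpl
  have hle : d * p ^ l ≤ ex b := Nat.div_mul_le_self _ _
  have hlt2 : ex b < 2 * (d * p ^ l) := by
    have z := Nat.div_add_mod (ex b) (p ^ l)
    have z2 := Nat.mod_lt (ex b) hpl0
    have z3 : 1 * p ^ l ≤ d * p ^ l := Nat.mul_le_mul_right _ hd1
    have z4 : p ^ l * (ex b / p ^ l) = d * p ^ l := by rw [hd, Nat.mul_comm]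
    omega
  have g1 : ∀ q, G1 p l d q = q / (d * p ^ l) := fun q => rfl
  rw [g1] at e1 e3
  generalize hDD : d * p ^ l = D at *
  have hD0 : 0 < D := by omega
  have k1 : (ex a).factorization p / D + 1 ≤ (ex b + (ex a).factorization p) / D := by
    rw [← Nat.add_div_right _ hD0]
    exact Nat.div_le_div_right (by omega)
  have k2 : (ex b + (ex a).factorization p) / D ≤ (ex a).factorization p / D + 2 := by
    have : ((ex a).factorization p + 2 * D) / D = (ex a).factorization p / D + 2 := by
      rw [Nat.add_mul_div_right _ _ hD0]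
    rw [← this]
    exact Nat.div_le_div_right (by omega)
  omega

end Pool.Agent.Q208.XP_B1
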