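import Pool.Agent.Q201.AR.Stm3

/-!
# Project AR (helper201), part 3, job ISOSAT: satisfaction of codes is invariant under isomorphism
-/

set_option autoImplicit false

open FirstOrder FirstOrder.Language Pool.Agent.Helper227.EN

namespace Pool.Agent.Q208.AR

open Q201.AR

theorem t_ISOSAT : S_ISOSAT := by
  intro M N sM sN θ c
  have hf : ∀ {n : ℕ} (f : LA.Functions n) (x : Fin n → M),
      θ (Structure.funMap f x) = Structure.funMap f (fun i => θ (x i)) := fun f x => θ.map_fun f x
  have hr : ∀ {n : ℕ} (r : LA.Relations n) (x : Fin n → M),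
      Structure.RelMap r (fun i => θ (x i)) ↔ Structure.RelMap r x := fun r x => θ.map_rel r x
  have h0 : (fun i => θ ((![] : Fin 0 → M) i)) = (![] : Fin 0 → N) := Subsingleton.elim _ _
  have h2 : ∀ a b : M, (fun i => θ ((![a, b] : Fin 2 → M) i)) = ![θ a, θ b] := by
    intro a b
    funext i
    fin_cases i <;> rfl
  have hinj := θ.injective
  induction c using code_ind with
  | hz i =>
    intro e
    rw [Sat_cz, Sat_cz, ← h0, ← hf]
    exact hinj.eq_iff
  | ho i =>
    intro e
    rw [Sat_co, Sat_co, ← h0, ← hf]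
    exact hinj.eq_iff
  | heq i j =>
    intro e
    rw [Sat_ceq, Sat_ceq]
    exact hinj.eq_iff
  | hlt i j =>
    intro e
    rw [Sat_clt, Sat_clt, ← h2]
    exact hr _ _
  | had i j k =>
    intro e
    rw [Sat_cad, Sat_cad, ← h2, ← hf]
    exact hinj.eq_iff
  | hml i j k =>
    intro e
    rw [Sat_cml, Sat_cml, ← h2, ← hf]
    exact hinj.eq_iff
  | hnor a b ha hb =>
    intro e
    rw [Sat_cnor, Sat_cnor, ha, hb]
  | hex i a ha =>
    intro e
    rw [Sat_cex, Sat_cex]
    have hu : ∀ x : M, Function.update (fun j => θ (e j)) i (θ x) =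
        fun j => θ (Function.update e i x j) := by
      intro x
      funext j
      by_cases h : j = i
      · subst h
        simp
      · simp [h]
    constructor
    · rintro ⟨y, hy⟩
      obtain ⟨x, rfl⟩ := θ.surjective y
      refine ⟨x, ?_⟩
      rw [hu] at hy
      exact (ha _).1 hy
    · rintro ⟨x, hx⟩
      refine ⟨θ x, ?_⟩
      rw [hu]
      exact (ha _).2 hx

end Pool.Agent.Q208.AR
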