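import Mathlib
import Pool.Agent.Q82.BB.Stm

/-!
# Project BB, job LIM: limits of sequences with bounded derivatives
-/

set_option autoImplicit false

open MeasureTheory Filter Topology Set

namespace Pool.Agent.Q82.BB

/-- Interpolation: the first derivative is controlled by the function and the second derivative. -/
private lemma lim_interp (f f' f'' : ℝ → ℂ) (A B h : ℝ) (hh : 0 < h)
    (h1 : ∀ x, HasDerivAt f (f' x) x) (h2 : ∀ x, HasDerivAt f' (f'' x) x)
    (hA : ∀ x, ‖f x‖ ≤ A) (hB : ∀ x, ‖f'' x‖ ≤ B) (x : ℝ) : ‖f' x‖ ≤ 2 * A / h + B * h := by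
  have hB0 : 0 ≤ B := le_trans (norm_nonneg _) (hB 0)
  -- the derivative is Lipschitz
  have hL : ∀ y ∈ Icc x (x + h), ‖f' y - f' x‖ ≤ B * h := by
    intro y hy
    have := Convex.norm_image_sub_le_of_norm_hasDerivWithin_le (f := f') (f' := f'') (C := B)
      (s := univ) (fun z _ => (h2 z).hasDerivWithinAt) (fun z _ => hB z) convex_univ
      (mem_univ x) (mem_univ y)
    refine this.trans ?_
    apply mul_le_mul_of_nonneg_left _ hB0
    rw [Real.norm_eq_abs, abs_of_nonneg (by linarith [hy.1])]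
    linarith [hy.2]
  have hG : ‖(f (x + h) - (x + h : ℝ) • f' x) - (f x - x • f' x)‖ ≤ (B * h) * ‖(x + h) - x‖ := by
    have := Convex.norm_image_sub_le_of_norm_hasDerivWithin_le
      (f := fun y : ℝ => f y - y • f' x) (f' := fun y => f' y - f' x) (C := B * h)
      (s := Icc x (x + h)) (fun z _ => by
        have h3 : HasDerivAt (fun y : ℝ => y • f' x) ((1 : ℝ) • f' x) z :=
          (hasDerivAt_id z).smul_const (f' x)
        have h4 := (h1 z).sub h3
        rw [one_smul] at h4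
        exact h4.hasDerivWithinAt) hL (convex_Icc _ _)
      (left_mem_Icc.2 (by linarith)) (right_mem_Icc.2 (by linarith))
    exact this
  have e1 : (f (x + h) - (x + h : ℝ) • f' x) - (f x - x • f' x) = (f (x + h) - f x) - h • f' x := by
    rw [add_smul]; ring
  rw [e1, show (x + h) - x = h by ring, Real.norm_eq_abs, abs_of_pos hh] at hG
  have e2 : ‖h • f' x‖ ≤ ‖f (x + h) - f x‖ + ‖(f (x + h) - f x) - h • f' x‖ := by
    have : h • f' x = (f (x + h) - f x) - ((f (x + h) - f x) - h • f' x) := by ring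
    calc ‖h • f' x‖ = ‖(f (x + h) - f x) - ((f (x + h) - f x) - h • f' x)‖ := by rw [← this]
      _ ≤ _ := norm_sub_le _ _
  have e3 : ‖f (x + h) - f x‖ ≤ 2 * A := by
    refine (norm_sub_le _ _).trans ?_
    linarith [hA (x + h), hA x]
  rw [norm_smul, Real.norm_eq_abs, abs_of_pos hh] at e2
  have e4 : h * ‖f' x‖ ≤ 2 * A + B * h * h := by linarith
  have e5 : ‖f' x‖ ≤ (2 * A + B * h * h) / h := by
    rw [le_div_iff₀ hh]; linarith
  refine e5.trans (le_of_eq ?_)
  field_simp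

theorem lim1 : S_LIM := by
  intro T w hT hsm hct hbd hgeo
  -- derivatives of the sequence
  have hder : ∀ n i : ℕ, ∀ τ ∈ Icc 0 T, ∀ ξ : ℝ,
      HasDerivAt (iteratedDeriv i (fun ξ => w n ξ τ)) (iteratedDeriv (i + 1) (fun ξ => w n ξ τ) ξ)
        ξ := by
    intro n i τ hτ ξ
    have h1 : Differentiable ℝ (iteratedDeriv i (fun ξ => w n ξ τ)) :=
      (hsm n τ hτ (i + 1)).differentiable_iteratedDeriv i (by exact_mod_cast Nat.lt_succ_self i)
    rw [iteratedDeriv_succ]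
    exact (h1 ξ).hasDerivAt
  -- geometric convergence of all derivatives
  have hg : ∀ i : ℕ, ∃ r C : ℝ, 0 < r ∧ r < 1 ∧ ∀ n : ℕ, ∀ ξ : ℝ, ∀ τ ∈ Icc 0 T,
      ‖iteratedDeriv i (fun ξ => w (n + 1) ξ τ) ξ - iteratedDeriv i (fun ξ => w n ξ τ) ξ‖
        ≤ C * r ^ n := by
    intro i
    induction i with
    | zero =>
      obtain ⟨r, C, h1, h2, h3⟩ := hgeo
      refine ⟨r, C, h1, h2, ?_⟩
      intro n ξ τ hτ
      simpa using h3 n ξ τ hτ
    | succ i ih =>
      obtain ⟨r, C, h1, h2, h3⟩ := ih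
      obtain ⟨B, hB⟩ := hbd (i + 2)
      have hs1 : 0 < √r := Real.sqrt_pos.2 h1
      have hs2 : √r < 1 := by
        rw [← Real.sqrt_one]
        exact Real.sqrt_lt_sqrt h1.le h2
      refine ⟨√r, 2 * C + 2 * B, hs1, hs2, ?_⟩
      intro n ξ τ hτ
      have := lim_interp
        (fun ξ => iteratedDeriv i (fun ξ => w (n + 1) ξ τ) ξ - iteratedDeriv i (fun ξ => w n ξ τ) ξ)
        (fun ξ => iteratedDeriv (i + 1) (fun ξ => w (n + 1) ξ τ) ξ -
          iteratedDeriv (i + 1) (fun ξ => w n ξ τ) ξ)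
        (fun ξ => iteratedDeriv (i + 2) (fun ξ => w (n + 1) ξ τ) ξ -
          iteratedDeriv (i + 2) (fun ξ => w n ξ τ) ξ)
        (C * r ^ n) (2 * B) ((√r) ^ n) (pow_pos hs1 n)
        (fun x => (hder (n + 1) i τ hτ x).sub (hder n i τ hτ x))
        (fun x => (hder (n + 1) (i + 1) τ hτ x).sub (hder n (i + 1) τ hτ x))
        (fun x => h3 n x τ hτ)
        (fun x => (norm_sub_le _ _).trans (by linarith [hB (n + 1) x τ hτ, hB n x τ hτ])) ξ
      refine this.trans (le_of_eq ?_)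
      have e : r ^ n = (√r) ^ n * (√r) ^ n := by
        rw [← mul_pow, Real.mul_self_sqrt h1.le]
      rw [e]
      have hp : (√r) ^ n ≠ 0 := (pow_pos hs1 n).ne'
      field_simp
  -- the limits
  have hlim : ∀ i : ℕ, ∀ τ ∈ Icc 0 T, ∀ ξ : ℝ, ∃ L : ℂ,
      Tendsto (fun n => iteratedDeriv i (fun ξ => w n ξ τ) ξ) atTop (𝓝 L) := by
    intro i τ hτ ξ
    obtain ⟨r, C, h1, h2, h3⟩ := hg i
    have hc : CauchySeq (fun n => iteratedDeriv i (fun ξ => w n ξ τ) ξ) := by
      refine cauchySeq_of_le_geometric r C h2 ?_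
      intro n
      rw [dist_comm, dist_eq_norm]
      exact h3 n ξ τ hτ
    exact cauchySeq_tendsto_of_complete hc
  let L : ℕ → ℝ → ℝ → ℂ := fun i ξ τ =>
    limUnder atTop (fun n => iteratedDeriv i (fun ξ => w n ξ τ) ξ)
  have hL : ∀ i : ℕ, ∀ τ ∈ Icc 0 T, ∀ ξ : ℝ,
      Tendsto (fun n => iteratedDeriv i (fun ξ => w n ξ τ) ξ) atTop (𝓝 (L i ξ τ)) := by
    intro i τ hτ ξ
    exact tendsto_nhds_limUnder (hlim i τ hτ ξ)
  have hrate : ∀ i : ℕ, ∃ r C : ℝ, 0 < r ∧ r < 1 ∧ ∀ n : ℕ, ∀ ξ : ℝ, ∀ τ ∈ Icc 0 T,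
      dist (iteratedDeriv i (fun ξ => w n ξ τ) ξ) (L i ξ τ) ≤ C * r ^ n := by
    intro i
    obtain ⟨r, C, h1, h2, h3⟩ := hg i
    refine ⟨r, C / (1 - r), h1, h2, ?_⟩
    intro n ξ τ hτ
    have := dist_le_of_le_geometric_of_tendsto r C h2
      (f := fun n => iteratedDeriv i (fun ξ => w n ξ τ) ξ)
      (fun n => by
        rw [dist_comm, dist_eq_norm]
        exact h3 n ξ τ hτ) (hL i τ hτ ξ) n
    refine this.trans (le_of_eq ?_)
    ring
  -- small constants
  have hsmall : ∀ r C : ℝ, 0 < r → r < 1 → ∀ ε : ℝ, 0 < ε → ∀ᶠ n : ℕ in atTop, C * r ^ n < ε := by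
    intro r C h1 h2 ε hε
    have ht : Tendsto (fun n : ℕ => C * r ^ n) atTop (𝓝 0) := by
      have := (tendsto_pow_atTop_nhds_zero_of_lt_one h1.le h2).const_mul C
      simpa using this
    exact ht.eventually (gt_mem_nhds hε)
  have hLd : ∀ i : ℕ, ∀ τ ∈ Icc 0 T, ∀ ξ : ℝ,
      HasDerivAt (fun ξ => L i ξ τ) (L (i + 1) ξ τ) ξ := by
    intro i τ hτ
    refine hasDerivAt_of_tendstoUniformly (l := atTop)
      (f := fun n ξ => iteratedDeriv i (fun ξ => w n ξ τ) ξ)
      (f' := fun n ξ => iteratedDeriv (i + 1) (fun ξ => w n ξ τ) ξ) ?_ ?_ ?_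
    · rw [Metric.tendstoUniformly_iff]
      intro ε hε
      obtain ⟨r, C, h1, h2, h3⟩ := hrate (i + 1)
      filter_upwards [hsmall r C h1 h2 ε hε] with n hn ξ
      rw [dist_comm]
      exact lt_of_le_of_lt (h3 n ξ τ hτ) hn
    · exact Filter.Eventually.of_forall fun n ξ => hder n i τ hτ ξ
    · intro ξ
      exact hL i τ hτ ξ
  have hLi : ∀ i : ℕ, ∀ τ ∈ Icc 0 T, iteratedDeriv i (fun ξ => L 0 ξ τ) = fun ξ => L i ξ τ := by
    intro i τ hτ
    induction i with
    | zero => simp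
    | succ i ih =>
      rw [iteratedDeriv_succ, ih]
      funext ξ
      exact (hLd i τ hτ ξ).deriv
  refine ⟨L 0, ?_, ?_, ?_⟩
  · intro τ hτ m
    apply contDiff_of_differentiable_iteratedDeriv
    intro k _
    rw [hLi k τ hτ]
    intro ξ
    exact (hLd k τ hτ ξ).differentiableAt
  · intro i
    have hc : ContinuousOn (fun q : ℝ × ℝ => L i q.1 q.2) (univ ×ˢ Icc 0 T) := by
      have hu : TendstoUniformlyOn (fun (n : ℕ) (q : ℝ × ℝ) =>
          iteratedDeriv i (fun ξ => w n ξ q.2) q.1) (fun q => L i q.1 q.2) atTop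
          (univ ×ˢ Icc 0 T) := by
        rw [Metric.tendstoUniformlyOn_iff]
        intro ε hε
        obtain ⟨r, C, h1, h2, h3⟩ := hrate i
        filter_upwards [hsmall r C h1 h2 ε hε] with n hn q hq
        rw [dist_comm]
        exact lt_of_le_of_lt (h3 n q.1 q.2 hq.2) hn
      exact hu.continuousOn (Filter.Frequently.of_forall fun n => hct n i)
    refine hc.congr ?_
    intro q hq
    show iteratedDeriv i (fun ξ => L 0 ξ q.2) q.1 = L i q.1 q.2
    rw [hLi i q.2 hq.2]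
  · intro i ξ τ hτ
    rw [hLi i τ hτ]
    exact hL i τ hτ ξ

end Pool.Agent.Q82.BB
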