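import Mathlib
import Pool.Agent.Q61.BS.Stm

/-! # Project BS (helper61), job SUM -/

set_option autoImplicit false

open MeasureTheory Set Filter Topology Real

noncomputable section

namespace Pool.Agent.Q208.BS

open Pool.Agent.Q61.BS

/-- `u + 1 ≤ K exp (c u / 2)`. -/
lemma lin_le_exp (c : ℝ) (hc : 0 < c) (u : ℝ) :
    u + 1 ≤ (2 / c + 1) * exp (c * u / 2) ∨ u < 0 := by
  by_cases hu : u < 0
  · exact Or.inr hu
  · left
    have h0 : 0 ≤ u := not_lt.1 hu
    have h1 : c * u / 2 + 1 ≤ exp (c * u / 2) := add_one_le_exp _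
    have h2 : u = 2 / c * (c * u / 2) := by field_simp
    have h3 : (1 : ℝ) ≤ exp (c * u / 2) := by
      have : 0 ≤ c * u / 2 := by positivity
      linarith
    have h4 : u ≤ 2 / c * exp (c * u / 2) := by
      calc u = 2 / c * (c * u / 2) := h2
        _ ≤ 2 / c * exp (c * u / 2) := by
          apply mul_le_mul_of_nonneg_left _ (by positivity)
          linarith
    linarith

/-- the bound of one term -/
lemma term_le {L δ θ u n : ℝ} (hL : 0 < L) (hδ : 0 < δ) (hn : 0 ≤ n) (hnu : n ≤ u) :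
    (u + 1) * exp (θ * (u * L)) * exp (-((θ + δ) * (u * L))) ≤
      (2 / (δ * L) + 1) * exp (-(δ * L / 2 * n)) := by
  have hc : 0 < δ * L := mul_pos hδ hL
  have hu : 0 ≤ u := hn.trans hnu
  have h1 := lin_le_exp (δ * L) hc u
  have h2 : u + 1 ≤ (2 / (δ * L) + 1) * exp (δ * L * u / 2) := by
    rcases h1 with h | h
    · exact h
    · linarith
  calc (u + 1) * exp (θ * (u * L)) * exp (-((θ + δ) * (u * L)))
      = (u + 1) * exp (-(δ * L * u)) := by
        rw [mul_assoc, ← exp_add]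
        congr 2
        ring
    _ ≤ (2 / (δ * L) + 1) * exp (δ * L * u / 2) * exp (-(δ * L * u)) :=
        mul_le_mul_of_nonneg_right h2 (exp_pos _).le
    _ = (2 / (δ * L) + 1) * exp (-(δ * L / 2 * u)) := by
        rw [mul_assoc, ← exp_add]
        congr 2
        ring
    _ ≤ (2 / (δ * L) + 1) * exp (-(δ * L / 2 * n)) := by
        apply mul_le_mul_of_nonneg_left _ (by positivity)
        apply exp_le_exp.2
        have : δ * L / 2 * n ≤ δ * L / 2 * u := mul_le_mul_of_nonneg_left hnu (by positivity)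
        linarith

/-- **JOB SUM**. -/
theorem sum1 (h : S_tct) (h1 : S_mmn) : S_sum := by
  intro β₁ β₂ θ δ hβ₁ hβ₂ hδ
  have hL : 0 < log 5 := log_pos (by norm_num)
  set L := log 5 with hLdef
  have hc : 0 < δ * L := mul_pos hδ hL
  set r := exp (-(δ * L / 2)) with hr
  have hr0 : 0 < r := exp_pos _
  have hr1 : r < 1 := by
    rw [hr, exp_lt_one_iff]
    have : 0 < δ * L / 2 := by positivity
    linarith
  set K := 2 / (δ * L) + 1 with hK
  have hK0 : 0 < K := by positivity
  refine ⟨fun n => K * ((n : ℝ) ^ 1 * r ^ n + r ^ n), ?_, ?_, ?_⟩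
  · apply Summable.mul_left
    apply Summable.add
    · apply summable_pow_mul_geometric_of_norm_lt_one
      rw [norm_of_nonneg hr0.le]
      exact hr1
    · exact summable_geometric_of_lt_one hr0.le hr1
  · intro n
    positivity
  · intro n hn
    have hterm : ∀ i ∈ Finset.range (n + 1), (Nat.card (TT β₁ β₂ θ n i) : ℝ) *
        ((1 / 5 : ℝ) ^ (mm β₁ β₂ n i)) ^ (θ + δ) ≤ K * r ^ n := by
      intro i hi
      have hin : i ≤ n := Nat.lt_succ_iff.1 (Finset.mem_range.1 hi)
      have ht := h β₁ β₂ θ hβ₁ hβ₂ n i hn hin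
      have hm := (h1 β₁ β₂ hβ₁ hβ₂ n i hin).1
      have hm' : (n : ℝ) ≤ mm β₁ β₂ n i := by exact_mod_cast hm
      have hp : ((1 / 5 : ℝ) ^ (mm β₁ β₂ n i)) ^ (θ + δ) =
          exp (-((θ + δ) * ((mm β₁ β₂ n i : ℝ) * L))) := by
        rw [rpow_def_of_pos (by positivity), log_pow, one_div, log_inv]
        congr 1
        rw [← hLdef]
        ring
      rw [hp]
      calc (Nat.card (TT β₁ β₂ θ n i) : ℝ) * exp (-((θ + δ) * ((mm β₁ β₂ n i : ℝ) * L)))
          ≤ ((mm β₁ β₂ n i + 1) * exp (θ * (mm β₁ β₂ n i * L))) *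
              exp (-((θ + δ) * ((mm β₁ β₂ n i : ℝ) * L))) :=
            mul_le_mul_of_nonneg_right ht (exp_pos _).le
        _ ≤ K * exp (-(δ * L / 2 * n)) := term_le hL hδ (Nat.cast_nonneg n) hm'
        _ = K * r ^ n := by
            rw [hr, ← exp_nat_mul]
            congr 2
            ring
    calc ∑ i ∈ Finset.range (n + 1), (Nat.card (TT β₁ β₂ θ n i) : ℝ) *
        ((1 / 5 : ℝ) ^ (mm β₁ β₂ n i)) ^ (θ + δ)
        ≤ ∑ _i ∈ Finset.range (n + 1), K * r ^ n := Finset.sum_le_sum hterm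
      _ = K * ((n : ℝ) ^ 1 * r ^ n + r ^ n) := by
          rw [Finset.sum_const, Finset.card_range, nsmul_eq_mul]
          push_cast
          ring

end Pool.Agent.Q208.BS
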