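import Mathlib
import Pool.Agent.Q82.CW.Stm

/-!
# Project CW, job H1T: test functions in `H¹` with compact support
-/

set_option autoImplicit false

open MeasureTheory Filter Topology Set
open scoped ContDiff

namespace Pool.Agent.Q82.CW

/-- the norm of `L²` -/
noncomputable def h1t_nn (f : ℝ → ℝ) : ℝ := √(∫ x, f x ^ 2)

theorem h1t_nn_nonneg (f : ℝ → ℝ) : 0 ≤ h1t_nn f := Real.sqrt_nonneg _

theorem h1t_inner {f g : ℝ → ℝ} (hf : MemLp f 2) (hg : MemLp g 2) :
    inner ℝ (hf.toLp f) (hg.toLp g) = ∫ x, f x * g x := by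
  rw [L2.inner_def]
  apply integral_congr_ae
  filter_upwards [hf.coeFn_toLp, hg.coeFn_toLp] with x h1 h2
  rw [h1, h2]
  simp [mul_comm]

theorem h1t_norm {f : ℝ → ℝ} (hf : MemLp f 2) : ‖hf.toLp f‖ = h1t_nn f := by
  have h := real_inner_self_eq_norm_sq (hf.toLp f)
  rw [h1t_inner] at h
  have h2 : (∫ x, f x ^ 2) = ‖hf.toLp f‖ ^ 2 := by
    rw [← h]
    apply integral_congr_ae
    filter_upwards with x
    ring
  rw [h1t_nn, h2, Real.sqrt_sq (norm_nonneg _)]

theorem h1t_cs {f g : ℝ → ℝ} (hf : MemLp f 2) (hg : MemLp g 2) :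
    |∫ x, f x * g x| ≤ h1t_nn f * h1t_nn g := by
  rw [← h1t_inner hf hg, ← h1t_norm hf, ← h1t_norm hg]
  exact abs_real_inner_le_norm _ _

theorem h1t_add {f g : ℝ → ℝ} (hf : MemLp f 2) (hg : MemLp g 2) :
    h1t_nn (fun x => f x + g x) ≤ h1t_nn f + h1t_nn g := by
  have h := norm_add_le (hf.toLp f) (hg.toLp g)
  rw [← MemLp.toLp_add hf hg, h1t_norm, h1t_norm, h1t_norm] at h
  exact h

theorem h1t_mono {f g : ℝ → ℝ} (hg : MemLp g 2) (C : ℝ) (hC : 0 ≤ C)
    (h : ∀ x, |f x| ≤ C * |g x|) : h1t_nn f ≤ C * h1t_nn g := by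
  have h2 : ∫ x, f x ^ 2 ≤ ∫ x, C ^ 2 * g x ^ 2 := by
    apply integral_mono_of_nonneg (ae_of_all _ fun x => sq_nonneg _) (hg.integrable_sq.const_mul _)
    apply ae_of_all
    intro x
    have h3 := pow_le_pow_left₀ (abs_nonneg _) (h x) 2
    rw [sq_abs, mul_pow, sq_abs] at h3
    exact h3
  rw [integral_const_mul] at h2
  unfold h1t_nn
  calc √(∫ x, f x ^ 2) ≤ √(C ^ 2 * ∫ x, g x ^ 2) := Real.sqrt_le_sqrt h2
    _ = C * √(∫ x, g x ^ 2) := by
      rw [Real.sqrt_mul (sq_nonneg _), Real.sqrt_sq hC]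

theorem h1t_sub_comm (f g : ℝ → ℝ) : h1t_nn (fun x => f x - g x) = h1t_nn fun x => g x - f x := by
  unfold h1t_nn
  congr 2
  funext x
  ring

theorem h1t_ind (s : Set ℝ) (hs : MeasurableSet s) :
    h1t_nn (s.indicator fun _ => (1 : ℝ)) = √(volume.real s) := by
  unfold h1t_nn
  have h : (fun x => s.indicator (fun _ => (1 : ℝ)) x ^ 2) = s.indicator fun _ => (1 : ℝ) := by
    funext x
    by_cases hx : x ∈ s <;> simp [hx]
  rw [h, integral_indicator_const _ hs]
  simp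

theorem h1t_memLp_ind (a b : ℝ) (s : Set ℝ) (hs : MeasurableSet s) (h : s ⊆ Icc a b) :
    MemLp (s.indicator fun _ => (1 : ℝ)) 2 := by
  apply memLp_indicator_const 2 hs
  right
  exact ((measure_mono h).trans_lt measure_Icc_lt_top).ne

theorem h1t_im {f g : ℝ → ℝ} (hf : MemLp f 2) (hg : MemLp g 2) :
    Integrable fun x => f x * g x := hf.integrable_mul hg

theorem h1t_ms {f g : ℝ → ℝ} (hf : MemLp f 2) (hg : MemLp g 2) :
    MemLp (fun x => f x - g x) 2 := hf.sub hg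

/-- Integrals over intervals. -/
theorem h1t_int {f : ℝ → ℝ} (hf : MemLp f 2) (a x R : ℝ) (h : a ≤ x) (hR : x - a ≤ R) :
    |∫ s in a..x, f s| ≤ √R * h1t_nn f := by
  rw [intervalIntegral.integral_of_le h, ← integral_indicator measurableSet_Ioc]
  have e : ∀ s, (Ioc a x).indicator f s = (Ioc a x).indicator (fun _ => (1 : ℝ)) s * f s := by
    intro s
    by_cases hx : s ∈ Ioc a x <;> simp [hx]
  simp_rw [e]
  refine (h1t_cs (h1t_memLp_ind a x _ measurableSet_Ioc Ioc_subset_Icc_self) hf).trans ?_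
  apply mul_le_mul_of_nonneg_right _ (h1t_nn_nonneg _)
  rw [h1t_ind _ measurableSet_Ioc]
  apply Real.sqrt_le_sqrt
  rw [Real.volume_real_Ioc_of_le h]
  exact hR

theorem h1t_step {v v' : ℝ → ℝ} (hv : H1c v v') : ∃ K : ℝ, 0 ≤ K ∧ ∀ ε : ℝ, 0 < ε →
    ∃ φ : ℝ → ℝ, ContDiff ℝ ∞ φ ∧ HasCompactSupport φ ∧ h1t_nn (fun x => φ x - v x) ≤ K * ε ∧
      h1t_nn (fun x => deriv φ x - v' x) ≤ K * ε := by
  obtain ⟨R1, hR1, h1⟩ := hv.supp.exists_pos_le_norm
  obtain ⟨R2, h2⟩ := hv.suppd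
  obtain ⟨R, hR, hv0, hv'0⟩ : ∃ R : ℝ, 0 < R ∧ (∀ x, R ≤ |x| → v x = 0) ∧
      ∀ x, R < |x| → v' x = 0 :=
    ⟨max R1 R2, lt_max_of_lt_left hR1, fun x hx => h1 x ((le_max_left _ _).trans hx),
      fun x hx => h2 x ((le_max_right _ _).trans_lt hx)⟩
  let χ : ContDiffBump (0 : ℝ) := ⟨R, R + 1, hR, by linarith⟩
  have cχ : Continuous χ := χ.continuous
  have mχ : MemLp χ 2 := cχ.memLp_of_hasCompactSupport χ.hasCompactSupport
  have χ1 : ∀ x, |x| ≤ R → χ x = 1 := fun x hx =>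
    χ.one_of_mem_closedBall (by rw [mem_closedBall_zero_iff]; exact hx)
  have χ0 : ∀ x, R + 1 ≤ |x| → χ x = 0 := fun x hx =>
    χ.zero_of_le_dist (by rw [dist_zero_right]; exact hx)
  have χv' : ∀ x, χ x * v' x = v' x := by
    intro x
    rcases le_or_gt |x| R with hx | hx
    · rw [χ1 x hx, one_mul]
    · rw [hv'0 x hx, mul_zero]
  have hq : 0 < ∫ x, χ x := χ.integral_pos
  set q : ℝ := ∫ x, χ x with hqd
  have iv' : ∀ a b : ℝ, IntervalIntegrable v' volume a b := by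
    intro a b
    rw [intervalIntegrable_iff]
    have hfin : IsFiniteMeasure (volume.restrict (Set.uIoc a b)) :=
      ⟨by rw [Measure.restrict_apply_univ, Set.uIoc]; exact measure_Ioc_lt_top⟩
    exact (hv.mem.restrict _).integrable one_le_two
  have supv' : Function.support v' ⊆ Ioc (-(R + 1)) (R + 1) := by
    intro x hx
    by_contra hc
    apply hx
    apply hv'0
    by_contra h3
    rw [not_lt, abs_le] at h3
    exact hc ⟨by linarith [h3.1], by linarith [h3.2]⟩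
  have intv' : ∫ x, v' x = 0 := by
    rw [← intervalIntegral.integral_eq_integral_of_support_subset supv', ← hv.ftc,
      hv0 (R + 1) (by rw [abs_of_pos (by linarith)]; linarith),
      hv0 (-(R + 1)) (by rw [abs_neg, abs_of_pos (by linarith)]; linarith), sub_zero]
  refine ⟨(1 + (2 * R + 2)) * (1 + h1t_nn χ ^ 2 / q), by positivity, fun ε hε => ?_⟩
  obtain ⟨g, hg1, hg2, hg3⟩ := hv.mem.exist_eLpNorm_sub_le (by norm_num) one_le_two hε
  have mg : MemLp g 2 := hg2.continuous.memLp_of_hasCompactSupport hg1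
  have mgv : MemLp (fun x => g x - v' x) 2 := mg.sub hv.mem
  have hgε : h1t_nn (fun x => g x - v' x) ≤ ε := by
    rw [h1t_sub_comm]
    have e := h1t_norm (hv.mem.sub mg)
    have e2 : h1t_nn (fun x => v' x - g x) = h1t_nn (v' - g) := rfl
    rw [e2, ← e, Lp.norm_toLp]
    exact ENNReal.toReal_le_of_le_ofReal hε.le hg3
  set a : ℝ := (∫ x, χ x * g x) / q with ha
  have iχg : Integrable fun x => χ x * g x := mχ.integrable_mul mg
  have iχv : Integrable fun x => χ x * v' x := mχ.integrable_mul hv.mem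
  have ha2 : |a| ≤ h1t_nn χ * ε / q := by
    have e1 : ∫ x, χ x * g x = ∫ x, χ x * (g x - v' x) := by
      have : ∫ x, χ x * (g x - v' x) = (∫ x, χ x * g x) - ∫ x, χ x * v' x := by
        rw [← integral_sub iχg iχv]
        apply integral_congr_ae
        filter_upwards with x
        ring
      simp_rw [χv'] at this
      rw [this, intv', sub_zero]
    rw [ha, abs_div, abs_of_pos hq, e1]
    apply div_le_div_of_nonneg_right _ hq.le
    exact (h1t_cs mχ mgv).trans (mul_le_mul_of_nonneg_left hgε (h1t_nn_nonneg _))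
  -- the derivative
  set h : ℝ → ℝ := fun x => χ x * (g x - a) with hh
  have sh : ContDiff ℝ ∞ h := χ.contDiff.mul (hg2.sub contDiff_const)
  have ch : Continuous h := sh.continuous
  have h0 : ∀ x, R + 1 ≤ |x| → h x = 0 := fun x hx => by rw [hh]; simp only; rw [χ0 x hx, zero_mul]
  have hhc : HasCompactSupport h := HasCompactSupport.intro (isCompact_Icc (a := -(R + 1)) (b := R + 1))
    fun x hx => h0 x (by
      by_contra hc
      rw [not_le, abs_lt] at hc
      exact hx ⟨hc.1.le, hc.2.le⟩)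
  have mh : MemLp h 2 := ch.memLp_of_hasCompactSupport hhc
  have mhv : MemLp (fun x => h x - v' x) 2 := mh.sub hv.mem
  have inth : ∫ x, h x = 0 := by
    have e : ∫ x, h x = (∫ x, χ x * g x) - ∫ x, χ x * a := by
      rw [← integral_sub iχg (χ.integrable.mul_const a)]
      apply integral_congr_ae
      filter_upwards with x
      rw [hh]
      ring
    rw [e, integral_mul_const, ← hqd, ha]
    field_simp
    ring
  have hE : h1t_nn (fun x => h x - v' x) ≤ (1 + h1t_nn χ ^ 2 / q) * ε := by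
    have e1 : (fun x => h x - v' x) = fun x => χ x * (g x - v' x) + (-a) * χ x := by
      funext x
      have := χv' x
      rw [hh]
      simp only
      linear_combination this
    have m1 : MemLp (fun x => χ x * (g x - v' x)) 2 := by
      apply mgv.of_le_mul (c := 1) (cχ.aestronglyMeasurable.mul mgv.1)
      apply ae_of_all
      intro x
      rw [Pi.mul_apply, norm_mul, one_mul]
      have : ‖χ x‖ ≤ 1 := by
        rw [Real.norm_eq_abs, abs_of_nonneg χ.nonneg]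
        exact χ.le_one
      exact mul_le_of_le_one_left (norm_nonneg _) this
    have m2 : MemLp (fun x => (-a) * χ x) 2 := mχ.const_mul (-a)
    have b1 : h1t_nn (fun x => χ x * (g x - v' x)) ≤ 1 * h1t_nn fun x => g x - v' x := by
      apply h1t_mono mgv 1 zero_le_one
      intro x
      rw [abs_mul, one_mul, abs_of_nonneg χ.nonneg]
      exact mul_le_of_le_one_left (abs_nonneg _) χ.le_one
    have b2 : h1t_nn (fun x => (-a) * χ x) ≤ |a| * h1t_nn χ := by
      apply h1t_mono mχ _ (abs_nonneg _)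
      intro x
      rw [abs_mul, abs_neg]
    have b3 := mul_le_mul_of_nonneg_right ha2 (h1t_nn_nonneg χ)
    rw [e1]
    calc _ ≤ h1t_nn (fun x => χ x * (g x - v' x)) + h1t_nn (fun x => (-a) * χ x) := h1t_add m1 m2
      _ ≤ 1 * ε + h1t_nn χ * ε / q * h1t_nn χ := by linarith
      _ = (1 + h1t_nn χ ^ 2 / q) * ε := by ring
  -- the function
  have ih : ∀ a b : ℝ, IntervalIntegrable h volume a b := fun a b => ch.intervalIntegrable a b
  set φ : ℝ → ℝ := fun x => ∫ s in (-(R + 1))..x, h s with hφ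
  have dφ : deriv φ = h := by
    funext x
    exact ch.deriv_integral h (-(R + 1)) x
  have φd : Differentiable ℝ φ := fun x =>
    (intervalIntegral.integral_hasDerivAt_right (ih _ _)
      (ch.stronglyMeasurableAtFilter _ _) ch.continuousAt).differentiableAt
  have φs : ContDiff ℝ ∞ φ := by
    rw [contDiff_infty_iff_deriv, dφ]
    exact ⟨φd, sh⟩
  have suph : Function.support h ⊆ Ioc (-(R + 1)) (R + 1) := by
    intro x hx
    by_contra hc
    apply hx
    apply h0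
    by_contra h3
    rw [not_le, abs_lt] at h3
    exact hc ⟨h3.1, h3.2.le⟩
  have φ0 : ∀ x, R + 1 ≤ |x| → φ x = 0 := by
    intro x hx
    rcases le_abs.1 hx with h3 | h3
    · rw [hφ]
      simp only
      rw [intervalIntegral.integral_eq_integral_of_support_subset
        (suph.trans (Ioc_subset_Ioc_right h3)), inth]
    · rw [hφ]
      simp only
      rw [intervalIntegral.integral_symm]
      have : ∫ s in x..(-(R + 1)), h s = 0 := by
        rw [intervalIntegral.integral_congr (g := fun _ => (0 : ℝ))]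
        · simp
        · intro s hs
          rw [uIcc_of_le (by linarith)] at hs
          apply h0
          rw [le_abs]
          right
          linarith [hs.2]
      rw [this, neg_zero]
  have φc : HasCompactSupport φ := HasCompactSupport.intro
    (isCompact_Icc (a := -(R + 1)) (b := R + 1)) fun x hx => φ0 x (by
      by_contra hc
      rw [not_le, abs_lt] at hc
      exact hx ⟨hc.1.le, hc.2.le⟩)
  have φv : ∀ x, |φ x - v x| ≤ √(2 * R + 2) * h1t_nn (fun x => h x - v' x) *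
      |(Icc (-(R + 1)) (R + 1)).indicator (fun _ => (1 : ℝ)) x| := by
    intro x
    by_cases hx : x ∈ Icc (-(R + 1)) (R + 1)
    · rw [indicator_of_mem hx, abs_one, mul_one]
      have e1 : v x = ∫ s in (-(R + 1))..x, v' s := by
        rw [← hv.ftc, hv0 (-(R + 1)) (by rw [abs_neg, abs_of_pos (by linarith)]; linarith), sub_zero]
      have e2 : φ x - v x = ∫ s in (-(R + 1))..x, (h s - v' s) := by
        rw [e1, intervalIntegral.integral_sub (ih _ _) (iv' _ _)]
      rw [e2]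
      exact h1t_int mhv _ _ _ hx.1 (by linarith [hx.2])
    · have hx2 : R + 1 ≤ |x| := by
        by_contra hc
        rw [not_le, abs_lt] at hc
        exact hx ⟨hc.1.le, hc.2.le⟩
      rw [φ0 x hx2, hv0 x (by linarith), sub_zero, abs_zero]
      exact mul_nonneg (mul_nonneg (Real.sqrt_nonneg _) (h1t_nn_nonneg _)) (abs_nonneg _)
  have m3 := h1t_memLp_ind (-(R + 1)) (R + 1) _ measurableSet_Icc subset_rfl
  have b4 := h1t_mono m3 _ (mul_nonneg (Real.sqrt_nonneg _) (h1t_nn_nonneg _)) φv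
  rw [h1t_ind _ measurableSet_Icc, Real.volume_real_Icc_of_le (by linarith),
    show R + 1 - -(R + 1) = 2 * R + 2 by ring] at b4
  have hs : √(2 * R + 2) * √(2 * R + 2) = 2 * R + 2 := Real.mul_self_sqrt (by linarith)
  have b5 : h1t_nn (fun x => φ x - v x) ≤ (2 * R + 2) * h1t_nn (fun x => h x - v' x) := by
    calc _ ≤ _ := b4
      _ = (√(2 * R + 2) * √(2 * R + 2)) * h1t_nn (fun x => h x - v' x) := by ring
      _ = _ := by rw [hs]
  have hE0 := h1t_nn_nonneg (fun x => h x - v' x)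
  have b6 : (2 * R + 2) * h1t_nn (fun x => h x - v' x) ≤
      (2 * R + 2) * ((1 + h1t_nn χ ^ 2 / q) * ε) :=
    mul_le_mul_of_nonneg_left hE (by linarith)
  have b7 : 0 ≤ (1 + h1t_nn χ ^ 2 / q) * ε := hE0.trans hE
  have b8 : 0 ≤ (2 * R + 2) * ((1 + h1t_nn χ ^ 2 / q) * ε) := mul_nonneg (by linarith) b7
  refine ⟨φ, φs, φc, ?_, ?_⟩
  · calc _ ≤ _ := b5
      _ ≤ _ := b6
      _ ≤ (1 + (2 * R + 2)) * (1 + h1t_nn χ ^ 2 / q) * ε := by linarith
  · rw [dφ]
    calc _ ≤ _ := hE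
      _ ≤ (1 + (2 * R + 2)) * (1 + h1t_nn χ ^ 2 / q) * ε := by linarith

theorem h1t_approx {v v' : ℝ → ℝ} (hv : H1c v v') : ∃ φ : ℕ → ℝ → ℝ, (∀ n, ContDiff ℝ ∞ (φ n)) ∧
    (∀ n, HasCompactSupport (φ n)) ∧
    Tendsto (fun n => h1t_nn fun x => φ n x - v x) atTop (𝓝 0) ∧
    Tendsto (fun n => h1t_nn fun x => deriv (φ n) x - v' x) atTop (𝓝 0) := by
  obtain ⟨K, hK, h⟩ := h1t_step hv
  choose φ h1 h2 h3 h4 using fun n : ℕ => h (1 / (n + 1 : ℝ)) (by positivity)
  have hl : Tendsto (fun n : ℕ => K * (1 / (n + 1 : ℝ))) atTop (𝓝 0) := by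
    have := (tendsto_one_div_add_atTop_nhds_zero_nat (𝕜 := ℝ)).const_mul K
    rwa [mul_zero] at this
  exact ⟨φ, h1, h2, squeeze_zero (fun n => h1t_nn_nonneg _) h3 hl,
    squeeze_zero (fun n => h1t_nn_nonneg _) h4 hl⟩

/-- uniform limits -/
theorem h1t_lim (F : ℕ → ℝ → ℝ) (G : ℝ → ℝ) (s t : ℝ) (hst : s ≤ t)
    (hF : ∀ n, ContinuousOn (F n) (Icc s t)) (ε : ℕ → ℝ) (hε : Tendsto ε atTop (𝓝 0))
    (h : ∀ n, ∀ τ ∈ Icc s t, |F n τ - G τ| ≤ ε n) :
    Tendsto (fun n => ∫ τ in s..t, F n τ) atTop (𝓝 (∫ τ in s..t, G τ)) := by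
  have hu : TendstoUniformlyOn F G atTop (Icc s t) := by
    rw [Metric.tendstoUniformlyOn_iff]
    intro δ hδ
    filter_upwards [hε.eventually_lt_const hδ] with n hn τ hτ
    rw [dist_comm, Real.dist_eq]
    exact (h n τ hτ).trans_lt hn
  have hG : ContinuousOn G (Icc s t) :=
    hu.continuousOn (Eventually.frequently (Eventually.of_forall hF))
  have iG : IntervalIntegrable G volume s t :=
    ContinuousOn.intervalIntegrable (by rw [uIcc_of_le hst]; exact hG)
  rw [tendsto_iff_norm_sub_tendsto_zero]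
  have hl : Tendsto (fun n => ε n * (t - s)) atTop (𝓝 0) := by
    have := hε.mul_const (t - s)
    rwa [zero_mul] at this
  refine squeeze_zero (fun n => norm_nonneg _) (fun n => ?_) hl
  have iF : IntervalIntegrable (F n) volume s t :=
    ContinuousOn.intervalIntegrable (by rw [uIcc_of_le hst]; exact hF n)
  rw [← intervalIntegral.integral_sub iF iG]
  have h2 := intervalIntegral.norm_integral_le_of_norm_le_const (C := ε n) (a := s) (b := t)
    (f := fun τ => F n τ - G τ) (fun τ hτ => by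
      rw [uIoc_of_le hst] at hτ
      exact h n τ ⟨hτ.1.le, hτ.2⟩)
  rwa [abs_of_nonneg (by linarith)] at h2

theorem h1t_pair {H φ v : ℝ → ℝ} (mH : MemLp H 2) (mφ : MemLp φ 2) (mv : MemLp v 2) (C : ℝ)
    (hC : h1t_nn H ≤ C) :
    |(∫ x, H x * φ x) - ∫ x, H x * v x| ≤ C * h1t_nn fun x => φ x - v x := by
  have e : (∫ x, H x * φ x) - ∫ x, H x * v x = ∫ x, H x * (φ x - v x) := by
    rw [← integral_sub (h1t_im mH mφ) (h1t_im mH mv)]
    apply integral_congr_ae
    filter_upwards with x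
    ring
  rw [e]
  exact (h1t_cs mH (mφ.sub mv)).trans (mul_le_mul_of_nonneg_right hC (h1t_nn_nonneg _))

theorem h1t_pair_lim {H v : ℝ → ℝ} {φ : ℕ → ℝ → ℝ} (mH : MemLp H 2) (mφ : ∀ n, MemLp (φ n) 2)
    (mv : MemLp v 2) (hl : Tendsto (fun n => h1t_nn fun x => φ n x - v x) atTop (𝓝 0)) :
    Tendsto (fun n => ∫ x, H x * φ n x) atTop (𝓝 (∫ x, H x * v x)) := by
  rw [tendsto_iff_norm_sub_tendsto_zero]
  have hl2 : Tendsto (fun n => h1t_nn H * h1t_nn fun x => φ n x - v x) atTop (𝓝 0) := by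
    have := hl.const_mul (h1t_nn H)
    rwa [mul_zero] at this
  exact squeeze_zero (fun n => norm_nonneg _) (fun n => h1t_pair mH (mφ n) mv _ le_rfl) hl2

theorem h1t_nn_lim {f : ℝ → ℝ → ℝ} {τ0 : ℝ} {l : Filter ℝ}
    (tf : Tendsto (fun τ => ∫ x, (f τ x - f τ0 x) ^ 2) l (𝓝 0)) (C : ℝ) :
    Tendsto (fun τ => C * h1t_nn (fun x => f τ x - f τ0 x)) l (𝓝 0) := by
  have h := ((Real.continuous_sqrt.tendsto 0).comp tf).const_mul C
  rw [Real.sqrt_zero, mul_zero] at h
  exact h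

theorem h1t_lin {f : ℝ → ℝ → ℝ} (mf : ∀ τ, 0 ≤ τ → MemLp (f τ) 2)
    (tf : ∀ τ0, 0 ≤ τ0 → Tendsto (fun τ => ∫ x, (f τ x - f τ0 x) ^ 2) (𝓝[Ici 0] τ0) (𝓝 0))
    {φ : ℝ → ℝ} (mφ : MemLp φ 2) : ContinuousOn (fun τ => ∫ x, f τ x * φ x) (Ici 0) := by
  intro τ0 h0
  rw [ContinuousWithinAt, tendsto_iff_norm_sub_tendsto_zero]
  apply squeeze_zero' (Eventually.of_forall fun τ => norm_nonneg _) _
    (h1t_nn_lim (tf τ0 h0) (h1t_nn φ))
  filter_upwards [self_mem_nhdsWithin] with τ hτ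
  have e : (∫ x, f τ x * φ x) - ∫ x, f τ0 x * φ x = ∫ x, φ x * (f τ x - f τ0 x) := by
    rw [← integral_sub (h1t_im (mf τ hτ) mφ) (h1t_im (mf τ0 h0) mφ)]
    apply integral_congr_ae
    filter_upwards with x
    ring
  rw [e]
  exact h1t_cs mφ ((mf τ hτ).sub (mf τ0 h0))

theorem h1t_bil {f g : ℝ → ℝ → ℝ} (mf : ∀ τ, 0 ≤ τ → MemLp (f τ) 2)
    (tf : ∀ τ0, 0 ≤ τ0 → Tendsto (fun τ => ∫ x, (f τ x - f τ0 x) ^ 2) (𝓝[Ici 0] τ0) (𝓝 0))
    (mg : ∀ τ, 0 ≤ τ → MemLp (g τ) 2)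
    (tg : ∀ τ0, 0 ≤ τ0 → Tendsto (fun τ => ∫ x, (g τ x - g τ0 x) ^ 2) (𝓝[Ici 0] τ0) (𝓝 0))
    (T M : ℝ) (hM : ∀ τ ∈ Icc 0 T, h1t_nn (g τ) ≤ M) {ψ : ℝ → ℝ} (cψ : Continuous ψ) (B : ℝ)
    (hB : ∀ x, |ψ x| ≤ B) :
    ContinuousOn (fun τ => ∫ x, f τ x * g τ x * ψ x) (Icc 0 T) := by
  have hB0 : 0 ≤ B := (abs_nonneg _).trans (hB 0)
  have mψ : ∀ {u : ℝ → ℝ}, MemLp u 2 → MemLp (fun x => u x * ψ x) 2 := fun {u} hu =>
    hu.of_le_mul (c := B) (hu.1.mul cψ.aestronglyMeasurable) (ae_of_all _ fun x => by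
      rw [norm_mul, mul_comm]
      exact mul_le_mul_of_nonneg_right (hB x) (norm_nonneg _))
  have nψ : ∀ {u : ℝ → ℝ}, MemLp u 2 → h1t_nn (fun x => u x * ψ x) ≤ B * h1t_nn u := fun {u} hu =>
    h1t_mono hu B hB0 fun x => by
      rw [abs_mul, mul_comm]
      exact mul_le_mul_of_nonneg_right (hB x) (abs_nonneg _)
  intro τ0 h0
  rw [ContinuousWithinAt, tendsto_iff_norm_sub_tendsto_zero]
  have hsub : Icc 0 T ⊆ Ici (0 : ℝ) := Icc_subset_Ici_self
  have l1 := h1t_nn_lim ((tf τ0 h0.1).mono_left (nhdsWithin_mono _ hsub)) (B * M)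
  have l2 := h1t_nn_lim ((tg τ0 h0.1).mono_left (nhdsWithin_mono _ hsub)) (h1t_nn (f τ0) * B)
  have l3 := l1.add l2
  rw [add_zero] at l3
  apply squeeze_zero' (Eventually.of_forall fun τ => norm_nonneg _) _ l3
  filter_upwards [self_mem_nhdsWithin] with τ hτ
  have m1 := mψ (mg τ hτ.1)
  have m2 := mψ (h1t_ms (mg τ hτ.1) (mg τ0 h0.1))
  have m3 := h1t_ms (mf τ hτ.1) (mf τ0 h0.1)
  have m4 := mψ (mg τ0 h0.1)
  have i1 : Integrable fun x => f τ x * g τ x * ψ x := by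
    refine ((mf τ hτ.1).integrable_mul m1).congr (ae_of_all _ fun x => ?_)
    show f τ x * (g τ x * ψ x) = _
    ring
  have i0 : Integrable fun x => f τ0 x * g τ0 x * ψ x := by
    refine ((mf τ0 h0.1).integrable_mul m4).congr (ae_of_all _ fun x => ?_)
    show f τ0 x * (g τ0 x * ψ x) = _
    ring
  have e : (∫ x, f τ x * g τ x * ψ x) - ∫ x, f τ0 x * g τ0 x * ψ x =
      (∫ x, (f τ x - f τ0 x) * (g τ x * ψ x)) + ∫ x, f τ0 x * ((g τ x - g τ0 x) * ψ x) := by
    rw [← integral_sub i1 i0, ← integral_add (h1t_im m3 m1) (h1t_im (mf τ0 h0.1) m2)]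
    apply integral_congr_ae
    filter_upwards with x
    ring
  rw [e]
  have b1 : |∫ x, (f τ x - f τ0 x) * (g τ x * ψ x)| ≤
      h1t_nn (fun x => f τ x - f τ0 x) * (B * M) :=
    (h1t_cs m3 m1).trans (mul_le_mul_of_nonneg_left
      ((nψ (mg τ hτ.1)).trans (mul_le_mul_of_nonneg_left (hM τ hτ) hB0)) (h1t_nn_nonneg _))
  have b2 : |∫ x, f τ0 x * ((g τ x - g τ0 x) * ψ x)| ≤
      h1t_nn (f τ0) * (B * h1t_nn fun x => g τ x - g τ0 x) :=
    (h1t_cs (mf τ0 h0.1) m2).trans (mul_le_mul_of_nonneg_left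
      (nψ (h1t_ms (mg τ hτ.1) (mg τ0 h0.1))) (h1t_nn_nonneg _))
  rw [Real.norm_eq_abs]
  calc _ ≤ _ := abs_add_le _ _
    _ ≤ h1t_nn (fun x => f τ x - f τ0 x) * (B * M) +
        h1t_nn (f τ0) * (B * h1t_nn fun x => g τ x - g τ0 x) := add_le_add b1 b2
    _ = _ := by ring

/-- H1T -/
theorem h1t (h1 : S_SUP) : S_H1T := by
  intro w b c hs v v' hv s t h0s hst
  obtain ⟨M, hM⟩ := (h1 w b c hs).1 t (h0s.trans hst)
  obtain ⟨φ, sφ, cφ, l0, l1⟩ := h1t_approx hv
  have h0t := h0s.trans hst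
  have mφ : ∀ n, MemLp (φ n) 2 := fun n =>
    (sφ n).continuous.memLp_of_hasCompactSupport (cφ n)
  have cφ' : ∀ n, Continuous (deriv (φ n)) := fun n => (sφ n).continuous_deriv (by simp)
  have mφ' : ∀ n, MemLp (deriv (φ n)) 2 := fun n =>
    (cφ' n).memLp_of_hasCompactSupport (cφ n).deriv
  have mv : MemLp v 2 := hv.cont.memLp_of_hasCompactSupport hv.supp
  have hM0 : 0 ≤ M := (abs_nonneg _).trans ((hM 0 ⟨le_rfl, h0t⟩).1 0)
  have nw : ∀ τ ∈ Icc 0 t, h1t_nn (w τ) ≤ √M := fun τ hτ => Real.sqrt_le_sqrt (hM τ hτ).2.1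
  have nb : ∀ τ ∈ Icc 0 t, h1t_nn (b τ) ≤ √M := fun τ hτ => Real.sqrt_le_sqrt (hM τ hτ).2.2.1
  have nc : ∀ τ ∈ Icc 0 t, h1t_nn (c τ) ≤ √M := fun τ hτ => Real.sqrt_le_sqrt (hM τ hτ).2.2.2
  have mwb : ∀ τ ∈ Icc 0 t, MemLp (fun x => w τ x * b τ x) 2 := fun τ hτ =>
    (hs.mb τ hτ.1).of_le_mul (c := M) ((hs.cw τ hτ.1).aestronglyMeasurable.mul (hs.mb τ hτ.1).1)
      (ae_of_all _ fun x => by
        rw [norm_mul]
        exact mul_le_mul_of_nonneg_right ((hM τ hτ).1 x) (norm_nonneg _))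
  have nwb : ∀ τ ∈ Icc 0 t, h1t_nn (fun x => w τ x * b τ x) ≤ M * √M := fun τ hτ =>
    (h1t_mono (hs.mb τ hτ.1) M hM0 fun x => by
      rw [abs_mul]
      exact mul_le_mul_of_nonneg_right ((hM τ hτ).1 x) (abs_nonneg _)).trans
      (mul_le_mul_of_nonneg_left (nb τ hτ) hM0)
  have bq : ∀ τ ∈ Icc 0 t, ∀ x, |2 * w τ x ^ 2 - 6 * w τ x| ≤ (2 * M + 6) * |w τ x| := by
    intro τ hτ x
    have e : 2 * w τ x ^ 2 - 6 * w τ x = (2 * w τ x - 6) * w τ x := by ring
    rw [e, abs_mul]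
    apply mul_le_mul_of_nonneg_right _ (abs_nonneg _)
    have := abs_le.1 ((hM τ hτ).1 x)
    rw [abs_le]
    constructor <;> linarith [this.1, this.2]
  have mq : ∀ τ ∈ Icc 0 t, MemLp (fun x => 2 * w τ x ^ 2 - 6 * w τ x) 2 := fun τ hτ =>
    (hs.mw τ hτ.1).of_le_mul (c := 2 * M + 6)
      (((((hs.cw τ hτ.1).pow 2).const_mul 2).sub
        ((hs.cw τ hτ.1).const_mul 6)).aestronglyMeasurable)
      (ae_of_all _ fun x => bq τ hτ x)
  have nq : ∀ τ ∈ Icc 0 t, h1t_nn (fun x => 2 * w τ x ^ 2 - 6 * w τ x) ≤ (2 * M + 6) * √M :=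
    fun τ hτ => (h1t_mono (hs.mw τ hτ.1) (2 * M + 6) (by linarith) (bq τ hτ)).trans
      (mul_le_mul_of_nonneg_left (nw τ hτ) (by linarith))
  have hsub : Icc s t ⊆ Icc 0 t := Icc_subset_Icc_left h0s
  constructor
  · have L : Tendsto (fun n => (∫ x, w t x * φ n x) - ∫ x, w s x * φ n x) atTop
        (𝓝 ((∫ x, w t x * v x) - ∫ x, w s x * v x)) :=
      (h1t_pair_lim (hs.mw t h0t) mφ mv l0).sub (h1t_pair_lim (hs.mw s h0s) mφ mv l0)
    have hl : Tendsto (fun n => √M * h1t_nn fun x => φ n x - v x) atTop (𝓝 0) := by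
      have := l0.const_mul √M
      rwa [mul_zero] at this
    have Rr := h1t_lim (fun n τ => ∫ x, c τ x * φ n x) (fun τ => ∫ x, c τ x * v x) s t hst
      (fun n => (h1t_lin hs.mc hs.tc (mφ n)).mono (hsub.trans Icc_subset_Ici_self))
      (fun n => √M * h1t_nn fun x => φ n x - v x) hl
      (fun n τ hτ => h1t_pair (hs.mc τ (h0s.trans hτ.1)) (mφ n) mv _ (nc τ (hsub hτ)))
    refine tendsto_nhds_unique L ?_
    refine Rr.congr fun n => ?_
    exact (hs.eq1 (φ n) (sφ n) (cφ n) s t h0s hst).symm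
  · have L : Tendsto (fun n => (∫ x, c t x * φ n x) - ∫ x, c s x * φ n x) atTop
        (𝓝 ((∫ x, c t x * v x) - ∫ x, c s x * v x)) :=
      (h1t_pair_lim (hs.mc t h0t) mφ mv l0).sub (h1t_pair_lim (hs.mc s h0s) mφ mv l0)
    have hl : Tendsto (fun n => (5 * √M + (2 * M + 6) * √M) * (h1t_nn fun x => φ n x - v x) +
        M * √M * (h1t_nn fun x => deriv (φ n) x - v' x)) atTop (𝓝 0) := by
      have := (l0.const_mul (5 * √M + (2 * M + 6) * √M)).add (l1.const_mul (M * √M))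
      rwa [mul_zero, mul_zero, add_zero] at this
    have Rr := h1t_lim (fun n τ => -5 * (∫ x, c τ x * φ n x) -
        (∫ x, w τ x * b τ x * deriv (φ n) x) + ∫ x, (2 * w τ x ^ 2 - 6 * w τ x) * φ n x)
      (fun τ => -5 * (∫ x, c τ x * v x) -
        (∫ x, w τ x * b τ x * v' x) + ∫ x, (2 * w τ x ^ 2 - 6 * w τ x) * v x) s t hst
      (fun n => by
        obtain ⟨B, hB⟩ := (cφ n).exists_bound_of_continuous (sφ n).continuous
        obtain ⟨B', hB'⟩ := (cφ n).deriv.exists_bound_of_continuous (cφ' n)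
        have c1 : ContinuousOn (fun τ => ∫ x, c τ x * φ n x) (Icc 0 t) :=
          (h1t_lin hs.mc hs.tc (mφ n)).mono Icc_subset_Ici_self
        have c2 := h1t_bil hs.mw hs.tw hs.mb hs.tb t _ nb (cφ' n) B' hB'
        have c3 := h1t_bil hs.mw hs.tw hs.mw hs.tw t _ nw (sφ n).continuous B hB
        have c4 : ContinuousOn (fun τ => ∫ x, w τ x * φ n x) (Icc 0 t) :=
          (h1t_lin hs.mw hs.tw (mφ n)).mono Icc_subset_Ici_self
        have c5 : ContinuousOn (fun τ => ∫ x, (2 * w τ x ^ 2 - 6 * w τ x) * φ n x) (Icc 0 t) := by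
          refine ((c3.const_smul (2 : ℝ)).sub (c4.const_smul (6 : ℝ))).congr fun τ hτ => ?_
          have i1 : Integrable fun x => w τ x * w τ x * φ n x := by
            have m1 : MemLp (fun x => w τ x * φ n x) 2 :=
              (mφ n).of_le_mul (c := M)
                ((hs.cw τ hτ.1).aestronglyMeasurable.mul (mφ n).1)
                (ae_of_all _ fun x => by
                  rw [norm_mul]
                  exact mul_le_mul_of_nonneg_right ((hM τ hτ).1 x) (norm_nonneg _))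
            refine ((hs.mw τ hτ.1).integrable_mul m1).congr (ae_of_all _ fun x => ?_)
            show w τ x * (w τ x * φ n x) = _
            ring
          have i2 : Integrable fun x => w τ x * φ n x := (hs.mw τ hτ.1).integrable_mul (mφ n)
          show _ = (2 : ℝ) • (∫ x, w τ x * w τ x * φ n x) - (6 : ℝ) • ∫ x, w τ x * φ n x
          rw [smul_eq_mul, smul_eq_mul, ← integral_const_mul, ← integral_const_mul,
            ← integral_sub (i1.const_mul 2) (i2.const_mul 6)]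
          apply integral_congr_ae
          filter_upwards with x
          ring
        exact (((c1.const_smul (-5 : ℝ)).sub c2).add c5).mono hsub)
      _ hl
      (fun n τ hτ => by
        have hτ0 := hsub hτ
        have b1 := h1t_pair (hs.mc τ hτ0.1) (mφ n) mv _ (nc τ hτ0)
        have b2 := h1t_pair (mwb τ hτ0) (mφ' n) hv.mem _ (nwb τ hτ0)
        have b3 := h1t_pair (mq τ hτ0) (mφ n) mv _ (nq τ hτ0)
        rw [abs_le] at b1 b2 b3 ⊢
        constructor <;> linarith [b1.1, b1.2, b2.1, b2.2, b3.1, b3.2])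
    refine tendsto_nhds_unique L ?_
    refine Rr.congr fun n => ?_
    exact (hs.eq2 (φ n) (sφ n) (cφ n) s t h0s hst).symm

end Pool.Agent.Q82.CW
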