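import Pool.Agent.Q127.DJ.Stm

/-!
# Project DJ, job QME: the measure with the density `D`
-/

set_option autoImplicit false

namespace Pool.Agent.Q208.DJ_QME

open Pool.Agent.Q127.DJ MeasureTheory

theorem qgen {X Y : Type} [MeasurableSpace X] [MeasurableSpace Y] (μ : Measure X) (ν : Measure Y)
    [IsProbabilityMeasure μ] [IsProbabilityMeasure ν] (D : X → Y → ℝ)
    (hm : Measurable fun p : X × Y => D p.1 p.2) (h0 : ∀ x y, 0 ≤ D x y) (C : ℝ)
    (hC : ∀ x y, D x y ≤ C) (hy : ∀ x, ∫ y, D x y ∂ν = 1) (hx : ∀ y, ∫ x, D x y ∂μ = 1) :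
    ∃ Q : Measure (X × Y), Q.map Prod.fst = μ ∧ Q.map Prod.snd = ν ∧ ∀ A, MeasurableSet A →
      Q.real A = ∫ x, ∫ y, A.indicator (fun p : X × Y => D p.1 p.2) (x, y) ∂ν ∂μ := by
  have hmE : Measurable fun p : X × Y => ENNReal.ofReal (D p.1 p.2) := hm.ennreal_ofReal
  have hI : Integrable (fun p : X × Y => D p.1 p.2) (μ.prod ν) := by
    refine Integrable.of_bound hm.aestronglyMeasurable C (Filter.Eventually.of_forall fun p => ?_)
    rw [Real.norm_of_nonneg (h0 _ _)]
    exact hC _ _
  have hy' : ∀ x, ∫⁻ y, ENNReal.ofReal (D x y) ∂ν = 1 := by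
    intro x
    have hi : Integrable (fun y => D x y) ν := by
      refine Integrable.of_bound (hm.comp measurable_prodMk_left).aestronglyMeasurable C
        (Filter.Eventually.of_forall fun y => ?_)
      rw [Real.norm_of_nonneg (h0 _ _)]
      exact hC _ _
    rw [← ofReal_integral_eq_lintegral_ofReal hi (Filter.Eventually.of_forall fun y => h0 x y), hy,
      ENNReal.ofReal_one]
  have hx' : ∀ y, ∫⁻ x, ENNReal.ofReal (D x y) ∂μ = 1 := by
    intro y
    have hi : Integrable (fun x => D x y) μ := by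
      refine Integrable.of_bound (hm.comp measurable_prodMk_right).aestronglyMeasurable C
        (Filter.Eventually.of_forall fun x => ?_)
      rw [Real.norm_of_nonneg (h0 _ _)]
      exact hC _ _
    rw [← ofReal_integral_eq_lintegral_ofReal hi (Filter.Eventually.of_forall fun x => h0 x y), hx,
      ENNReal.ofReal_one]
  refine ⟨(μ.prod ν).withDensity fun p => ENNReal.ofReal (D p.1 p.2), ?_, ?_, ?_⟩
  · ext s hs
    rw [Measure.map_apply measurable_fst hs, withDensity_apply _ (measurable_fst hs),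
      ← Set.prod_univ, ← Measure.prod_restrict, lintegral_prod _ hmE.aemeasurable]
    simp only [Measure.restrict_univ, hy']
    rw [setLIntegral_const, one_mul]
  · ext s hs
    rw [Measure.map_apply measurable_snd hs, withDensity_apply _ (measurable_snd hs),
      ← Set.univ_prod, ← Measure.prod_restrict, lintegral_prod_symm _ hmE.aemeasurable]
    simp only [Measure.restrict_univ, hx']
    rw [setLIntegral_const, one_mul]
  · intro A hA
    have hIA : Integrable (A.indicator fun p : X × Y => D p.1 p.2) (μ.prod ν) := hI.indicator hA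
    have hnn : 0 ≤ ∫ p in A, D p.1 p.2 ∂(μ.prod ν) :=
      integral_nonneg fun p : X × Y => h0 p.1 p.2
    rw [measureReal_def, withDensity_apply _ hA,
      ← ofReal_integral_eq_lintegral_ofReal hI.integrableOn
        (Filter.Eventually.of_forall fun p => h0 p.1 p.2),
      ENNReal.toReal_ofReal hnn, ← integral_indicator hA, integral_prod _ hIA]

theorem qme (_h1 : S_ce1) (h2 : S_inn) (h3 : S_mar) : S_qme := by
  intro μ ν _ _ m k f h a b ε T U hε0 hε1
  have hg : ∀ t, Measurable (g μ f a t) := fun t => (h2 μ m f a t).2.1.1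
  have hg' : ∀ t, Measurable (g ν h b t) := fun t => (h2 ν k h b t).2.1.1
  have hb : ∀ t x, |g μ f a t x| ≤ 1 := fun t => (h2 μ m f a t).2.1.2
  have hb' : ∀ t y, |g ν h b t y| ≤ 1 := fun t => (h2 ν k h b t).2.1.2
  have hε : |ε| ≤ 1 := abs_le.2 ⟨by linarith, hε1⟩
  have hc : ∀ t x, |ε * g μ f a t x| ≤ 1 := by
    intro t x
    rw [abs_mul]
    exact mul_le_one₀ hε (abs_nonneg _) (hb t x)
  have hc' : ∀ t y, |ε * g ν h b t y| ≤ 1 := by
    intro t y
    rw [abs_mul]
    exact mul_le_one₀ hε (abs_nonneg _) (hb' t y)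
  have hcc : ∀ t x y, |ε * g μ f a t x * g ν h b t y| ≤ 1 := by
    intro t x y
    rw [abs_mul]
    exact mul_le_one₀ (hc t x) (abs_nonneg _) (hb' t y)
  have hm : Measurable fun p : (ℕ → ℕ) × (ℕ → ℕ) => D μ ν f h a b ε T U p.1 p.2 := by
    unfold D
    refine Finset.measurable_fun_prod _ fun t _ => ?_
    exact measurable_const.add ((measurable_const.mul ((hg t).comp measurable_fst)).mul
      ((hg' t).comp measurable_snd))
  have h0 : ∀ x y, 0 ≤ D μ ν f h a b ε T U x y := by
    intro x y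
    refine Finset.prod_nonneg fun t _ => ?_
    have := (abs_le.1 (hcc t x y)).1
    linarith
  have hC : ∀ x y, D μ ν f h a b ε T U x y ≤ 2 ^ (Finset.Ico T U).card := by
    intro x y
    unfold D
    rw [← Finset.prod_const]
    refine Finset.prod_le_prod (fun t _ => ?_) fun t _ => ?_
    · have := (abs_le.1 (hcc t x y)).1
      linarith
    · have := (abs_le.1 (hcc t x y)).2
      linarith
  have hy : ∀ x, ∫ y, D μ ν f h a b ε T U x y ∂ν = 1 := by
    intro x
    exact h3 ν k h b (fun t => ε * g μ f a t x) T U fun t => hc t x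
  have hx : ∀ y, ∫ x, D μ ν f h a b ε T U x y ∂μ = 1 := by
    intro y
    have := h3 μ m f a (fun t => ε * g ν h b t y) T U fun t => hc' t y
    rw [← this]
    refine integral_congr_ae (Filter.Eventually.of_forall fun x => ?_)
    refine Finset.prod_congr rfl fun t _ => ?_
    ring
  obtain ⟨Q, hQ1, hQ2, hQ3⟩ := qgen μ ν (D μ ν f h a b ε T U) hm h0 _ hC hy hx
  refine ⟨Q, hQ1, hQ2, fun s s' => ?_⟩
  have hA : MeasurableSet {p : (ℕ → ℕ) × (ℕ → ℕ) | f (p.1 s) = a ∧ h (p.2 s') = b} := by
    refine MeasurableSet.inter ?_ ?_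
    · have e : Measurable fun p : (ℕ → ℕ) × (ℕ → ℕ) => p.1 s :=
        (measurable_pi_apply s).comp measurable_fst
      exact e (t := {n : ℕ | f n = a}) MeasurableSet.of_discrete
    · have e : Measurable fun p : (ℕ → ℕ) × (ℕ → ℕ) => p.2 s' :=
        (measurable_pi_apply s').comp measurable_snd
      exact e (t := {n : ℕ | h n = b}) MeasurableSet.of_discrete
  rw [hQ3 _ hA]
  refine integral_congr_ae (Filter.Eventually.of_forall fun x => ?_)
  refine integral_congr_ae (Filter.Eventually.of_forall fun y => ?_)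
  show Set.indicator _ _ (x, y) = _
  by_cases h1 : f (x s) = a
  · by_cases h2 : h (y s') = b
    · rw [Set.indicator_of_mem (show (x, y) ∈ {p : (ℕ → ℕ) × (ℕ → ℕ) |
        f (p.1 s) = a ∧ h (p.2 s') = b} from ⟨h1, h2⟩)]
      simp only [I, if_pos h1, if_pos h2, one_mul]
    · rw [Set.indicator_of_notMem (show (x, y) ∉ {p : (ℕ → ℕ) × (ℕ → ℕ) |
        f (p.1 s) = a ∧ h (p.2 s') = b} from fun hh => h2 hh.2)]
      simp only [I, if_neg h2, mul_zero, zero_mul]
  · rw [Set.indicator_of_notMem (show (x, y) ∉ {p : (ℕ → ℕ) × (ℕ → ℕ) |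
        f (p.1 s) = a ∧ h (p.2 s') = b} from fun hh => h1 hh.1)]
    simp only [I, if_neg h1, zero_mul]

end Pool.Agent.Q208.DJ_QME
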