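import Mathlib
import Pool.Agent.Q88.MF.Stm

/-! # Project MF (helper88), job HLS -/

set_option autoImplicit false

namespace Pool.Agent.Q208.MF

open Pool.Agent.Q88.MF

/-- **HLS** -/
theorem hls (h : S_lip) (h1 : S_kmo) : S_hls := by
  intro a ha
  obtain ⟨L, hL1, hL⟩ := h a ha
  obtain ⟨hk, -, -⟩ := h1 a ha
  have hH : ∀ t t' r : ℝ, |H a t r - H a t' r| ≤ L * |t - t'| := by
    intro t t' r
    unfold H
    refine (abs_max_sub_max_le_max _ _ _ _).trans (max_le (hL t t') ?_)
    rw [← sub_mul, abs_mul, abs_of_nonneg (hk r).1]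
    calc |t - t'| * kap a r ≤ |t - t'| * 1 := mul_le_mul_of_nonneg_left (hk r).2 (abs_nonneg _)
      _ ≤ L * |t - t'| := by
        rw [mul_one]
        exact le_mul_of_one_le_left (abs_nonneg _) hL1
  have hH0 : ∀ r : ℝ, H a 0 r = 0 := by
    intro r
    unfold H mf
    simp
  refine ⟨L, hL1, fun s s' r => ?_⟩
  have key : ∀ s s' : ℝ, s < 0 → 0 ≤ s' → |hh a s r - hh a s' r| ≤ L * |s - s'| := by
    intro s s' hs hs'
    unfold hh
    rw [if_neg (not_le.2 hs), if_pos hs']
    have e1 := hH (-s) 0 r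
    have e2 := hH s' 0 r
    rw [hH0, sub_zero, sub_zero] at e1 e2
    have e3 : |(-H a (-s) r) - H a s' r| ≤ |H a (-s) r| + |H a s' r| := by
      calc |(-H a (-s) r) - H a s' r| ≤ |-H a (-s) r| + |H a s' r| := abs_sub _ _
        _ = _ := by rw [abs_neg]
    have e4 : |s - s'| = |-s| + |s'| := by
      rw [abs_of_neg (by linarith : s - s' < 0), abs_of_pos (by linarith : 0 < -s), abs_of_nonneg hs']
      ring
    rw [e4]
    linarith
  rcases lt_or_ge s 0 with hs | hs <;> rcases lt_or_ge s' 0 with hs' | hs'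
  · unfold hh
    rw [if_neg (not_le.2 hs), if_neg (not_le.2 hs')]
    have e1 := hH (-s) (-s') r
    have e2 : (-H a (-s) r) - (-H a (-s') r) = -(H a (-s) r - H a (-s') r) := by ring
    have e3 : (-s) - (-s') = -(s - s') := by ring
    rw [e2, abs_neg]
    rw [e3, abs_neg] at e1
    exact e1
  · exact key s s' hs hs'
  · rw [abs_sub_comm, abs_sub_comm s s']
    exact key s' s hs' hs
  · unfold hh
    rw [if_pos hs, if_pos hs']
    exact hH s s' r

end Pool.Agent.Q208.MF
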