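import Mathlib
import Pool.Agent.Q61.MH.Stm

/-!
# Project MH (helper61), job QMONO
-/

set_option autoImplicit false

open Real Filter Topology

noncomputable section

namespace Pool.Agent.Q208.MH

open Pool.Agent.Q61.MH

lemma qm_deriv (r c a D s : ℝ) (h1 : 0 < a + D + s) (h2 : 0 < a + s) :
    HasDerivAt (fun s : ℝ => (a + D + s) ^ r - c * (a + s) ^ r)
      (r * (a + D + s) ^ (r - 1) - c * (r * (a + s) ^ (r - 1))) s := by
  have e1 : HasDerivAt (fun s : ℝ => a + D + s) 1 s := (hasDerivAt_id s).const_add (a + D)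
  have e2 : HasDerivAt (fun s : ℝ => a + s) 1 s := (hasDerivAt_id s).const_add a
  have e3 := e1.rpow_const (p := r) (Or.inl h1.ne')
  have e4 := (e2.rpow_const (p := r) (Or.inl h2.ne')).const_mul c
  have e5 := e3.sub e4
  simp only [one_mul] at e5
  exact e5

lemma claim1 (r a D d l : ℝ) (hr : 1 < r) (ha : 0 < a) (hd : 0 ≤ d) (hl : 0 ≤ l)
    (hD : l * (a + d) ≤ D) :
    (1 + l) ^ (r - 1) * ((a + d) ^ r - a ^ r) ≤ (a + D + d) ^ r - (a + D) ^ r := by
  have hD0 : 0 ≤ D := le_trans (by positivity) hD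
  have hmono : MonotoneOn (fun s : ℝ => (a + D + s) ^ r - (1 + l) ^ (r - 1) * (a + s) ^ r)
      (Set.Icc 0 d) := by
    refine monotoneOn_of_deriv_nonneg (convex_Icc 0 d) ?_ ?_ ?_
    · intro s hs
      exact (qm_deriv r _ a D s (by linarith [hs.1]) (by linarith [hs.1])).continuousAt.continuousWithinAt
    · intro s hs
      rw [interior_Icc] at hs
      exact (qm_deriv r _ a D s (by linarith [hs.1])
        (by linarith [hs.1])).differentiableAt.differentiableWithinAt
    · intro s hs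
      rw [interior_Icc] at hs
      have h2 : 0 < a + s := by linarith [hs.1]
      rw [(qm_deriv r _ a D s (by linarith [hs.1]) h2).deriv]
      have h3 : (1 + l) ^ (r - 1) * (a + s) ^ (r - 1) = ((1 + l) * (a + s)) ^ (r - 1) :=
        (Real.mul_rpow (by linarith) h2.le).symm
      have h4 : ((1 + l) * (a + s)) ^ (r - 1) ≤ (a + D + s) ^ (r - 1) := by
        refine Real.rpow_le_rpow (by positivity) ?_ (by linarith)
        have : l * (a + s) ≤ l * (a + d) := mul_le_mul_of_nonneg_left (by linarith [hs.2]) hl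
        nlinarith
      have h5 : (1 + l) ^ (r - 1) * (r * (a + s) ^ (r - 1)) =
          r * ((1 + l) ^ (r - 1) * (a + s) ^ (r - 1)) := by ring
      rw [h5, h3]
      have := mul_le_mul_of_nonneg_left h4 (by linarith : 0 ≤ r)
      linarith
  have h := hmono (Set.left_mem_Icc.2 hd) (Set.right_mem_Icc.2 hd) hd
  simp only [add_zero] at h
  linarith

lemma claim2 (r b E e l : ℝ) (hr : 1 < r) (hb : 0 < b) (he : 0 ≤ e) (hl : 0 ≤ l) (hE0 : 0 ≤ E)
    (hE : E ≤ l * b) :
    (b + E + e) ^ r - (b + E) ^ r ≤ (1 + l) ^ (r - 1) * ((b + e) ^ r - b ^ r) := by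
  have hmono : AntitoneOn (fun s : ℝ => (b + E + s) ^ r - (1 + l) ^ (r - 1) * (b + s) ^ r)
      (Set.Icc 0 e) := by
    refine antitoneOn_of_deriv_nonpos (convex_Icc 0 e) ?_ ?_ ?_
    · intro s hs
      exact (qm_deriv r _ b E s (by linarith [hs.1]) (by linarith [hs.1])).continuousAt.continuousWithinAt
    · intro s hs
      rw [interior_Icc] at hs
      exact (qm_deriv r _ b E s (by linarith [hs.1])
        (by linarith [hs.1])).differentiableAt.differentiableWithinAt
    · intro s hs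
      rw [interior_Icc] at hs
      have h2 : 0 < b + s := by linarith [hs.1]
      rw [(qm_deriv r _ b E s (by linarith [hs.1]) h2).deriv]
      have h3 : (1 + l) ^ (r - 1) * (b + s) ^ (r - 1) = ((1 + l) * (b + s)) ^ (r - 1) :=
        (Real.mul_rpow (by linarith) h2.le).symm
      have h4 : (b + E + s) ^ (r - 1) ≤ ((1 + l) * (b + s)) ^ (r - 1) := by
        refine Real.rpow_le_rpow (by linarith [hs.1]) ?_ (by linarith)
        have : 0 ≤ l * s := mul_nonneg hl hs.1.le
        nlinarith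
      have h5 : (1 + l) ^ (r - 1) * (r * (b + s) ^ (r - 1)) =
          r * ((1 + l) ^ (r - 1) * (b + s) ^ (r - 1)) := by ring
      rw [h5, h3]
      have := mul_le_mul_of_nonneg_left h4 (by linarith : 0 ≤ r)
      linarith
  have h := hmono (Set.left_mem_Icc.2 he) (Set.right_mem_Icc.2 he) he
  simp only [add_zero] at h
  linarith

theorem qmono : S_qmono := by
  intro k hk r hr hQ
  have hk1 : (1 : ℝ) ≤ k := by exact_mod_cast hk
  have hm : mm (k + 1) = mm k + (4 * (k : ℝ) + 5) := by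
    unfold mm
    push_cast
    ring
  have hn : nn (k + 1) = nn k + (4 * (k : ℝ) + 7) := by
    unfold nn
    push_cast
    ring
  have hm0 : 3 ≤ mm k := by
    unfold mm
    nlinarith
  have hn0 : 0 < nn k := by
    unfold nn
    positivity
  set l1 : ℝ := (4 * (k : ℝ) + 5) / (mm k + 3) with hl1
  set l2 : ℝ := (4 * (k : ℝ) + 7) / nn k with hl2
  have hl10 : 0 ≤ l1 := by positivity
  have hl20 : 0 ≤ l2 := by positivity
  have hl : l2 ≤ l1 := by
    rw [hl1, hl2, div_le_div_iff₀ hn0 (by linarith)]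
    unfold mm nn
    nlinarith
  have c1 := claim1 r (mm k) (4 * (k : ℝ) + 5) 3 l1 hr (by linarith) (by norm_num) hl10
    (by rw [hl1, div_mul_cancel₀ _ (by linarith : mm k + 3 ≠ 0)])
  have c2 := claim2 r (nn k) (4 * (k : ℝ) + 7) 1 l2 hr hn0 (by norm_num) hl20 (by positivity)
    (by rw [hl2, div_mul_cancel₀ _ hn0.ne'])
  unfold Qk at hQ ⊢
  rw [hm, hn]
  have hY : 0 < (nn k + 1) ^ r - nn k ^ r := by
    have := Real.rpow_lt_rpow hn0.le (by linarith : nn k < nn k + 1) (by linarith : 0 < r)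
    linarith
  have hp : (1 + l2) ^ (r - 1) ≤ (1 + l1) ^ (r - 1) :=
    Real.rpow_le_rpow (by linarith) (by linarith) (by linarith)
  have hp0 : 0 < (1 + l2) ^ (r - 1) := Real.rpow_pos_of_pos (by linarith) _
  have h1 : (1 + l2) ^ (r - 1) * ((mm k + 3) ^ r - mm k ^ r) ≤
      (1 + l1) ^ (r - 1) * ((mm k + 3) ^ r - mm k ^ r) :=
    mul_le_mul_of_nonneg_right hp (by linarith)
  have h2 : (1 + l2) ^ (r - 1) * ((nn k + 1) ^ r - nn k ^ r) <
      (1 + l2) ^ (r - 1) * ((mm k + 3) ^ r - mm k ^ r) :=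
    mul_lt_mul_of_pos_left (by linarith) hp0
  linarith

end Pool.Agent.Q208.MH
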