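import Pool.Agent.Q208.Slalom

/-!
# Coding null sets, and the additivity of null ideals
-/

open Filter Cardinal Set MeasureTheory Topology
open scoped ENNReal

namespace Q208

variable {X : Type} [TopologicalSpace X] [SecondCountableTopology X] [MeasurableSpace X]
  [BorelSpace X]

/-- the countable algebra of sets generated by a countable basis -/
def alg (X : Type) [TopologicalSpace X] [SecondCountableTopology X] : Set (Set X) :=
  generateSetAlgebra (TopologicalSpace.countableBasis X)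

omit [MeasurableSpace X] [BorelSpace X] in
theorem alg_countable : (alg X).Countable :=
  countable_generateSetAlgebra (TopologicalSpace.countable_countableBasis X)

omit [MeasurableSpace X] [BorelSpace X] in
theorem alg_isSetAlgebra : IsSetAlgebra (alg X) := isSetAlgebra_generateSetAlgebra

theorem alg_measurable {A : Set X} (hA : A ∈ alg X) : MeasurableSet A := by
  unfold alg at hA
  induction hA with
  | base s hs => exact (TopologicalSpace.isOpen_of_mem_countableBasis hs).measurableSet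
  | empty => exact MeasurableSet.empty
  | compl s _ ih => exact ih.compl
  | union s t _ _ ih1 ih2 => exact ih1.union ih2

/-- an enumeration of the algebra -/
theorem exists_enum (X : Type) [TopologicalSpace X] [SecondCountableTopology X] :
    ∃ e : ℕ → Set X, (∀ n, e n ∈ alg X) ∧ ∀ A ∈ alg X, ∃ n, e n = A := by
  have h1 : (alg X).Nonempty := ⟨∅, alg_isSetAlgebra.empty_mem⟩
  obtain ⟨e, he⟩ := alg_countable.exists_eq_range h1
  exact ⟨e, fun n => by rw [he]; exact ⟨n, rfl⟩, fun A hA => by rw [he] at hA; exact hA⟩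

omit [MeasurableSpace X] [BorelSpace X] in
/-- an open set is the union of a disjoint sequence of members of the algebra -/
theorem open_eq_iUnion {U : Set X} (hU : IsOpen U) : ∃ D : ℕ → Set X,
    (∀ n, D n ∈ alg X) ∧ Pairwise (Function.onFun Disjoint D) ∧ U = ⋃ n, D n := by
  classical
  obtain ⟨e, he1, he2⟩ := exists_enum X
  let W : ℕ → Set X := fun n => if (e n : Set X) ⊆ U then (e n : Set X) else ∅
  have hW : ∀ n, W n ∈ alg X := by
    intro n
    by_cases h : (e n : Set X) ⊆ U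
    · simp only [W, if_pos h]; exact he1 n
    · simp only [W, if_neg h]; exact alg_isSetAlgebra.empty_mem
  refine ⟨disjointed W, fun n => ?_, disjoint_disjointed W, ?_⟩
  · exact disjointedRec (p := fun s : Set X => s ∈ alg X)
      (fun t i ht => alg_isSetAlgebra.sdiff_mem ht (hW i)) (hW n)
  · rw [iUnion_disjointed]
    ext z
    rw [mem_iUnion]
    constructor
    · intro hz
      obtain ⟨V, hV, hzV, hVU⟩ :=
        (TopologicalSpace.isBasis_countableBasis X).exists_subset_of_mem_open hz hU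
      obtain ⟨n, hn⟩ := he2 V (self_subset_generateSetAlgebra hV)
      refine ⟨n, ?_⟩
      simp only [W, hn, if_pos hVU]; exact hzV
    · rintro ⟨n, hn⟩
      by_cases h : (e n : Set X) ⊆ U
      · simp only [W, if_pos h] at hn; exact h hn
      · simp only [W, if_neg h] at hn; exact absurd hn (notMem_empty z)

theorem null_seq (μ : Measure X) [μ.OuterRegular] {A : Set X} (hA : μ A = 0) :
    ∃ E : ℕ → Set X, (∀ n, E n ∈ alg X) ∧
    ∑' n, μ (E n) ≠ ∞ ∧ ∀ z ∈ A, ∃ᶠ n in atTop, z ∈ E n := by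
  have h1 : ∀ m : ℕ, ∃ U ⊇ A, IsOpen U ∧ μ U < (2⁻¹ : ℝ≥0∞) ^ m := by
    intro m
    apply A.exists_isOpen_lt_of_lt
    rw [hA]
    exact ENNReal.pow_pos (by simp) m
  choose U hUA hU hUm using h1
  choose D hD1 hD2 hD3 using fun m => open_eq_iUnion (hU m)
  have hsum : ∀ m, ∑' j, μ (D m j) = μ (U m) := by
    intro m
    rw [hD3 m, measure_iUnion (hD2 m) (fun j => alg_measurable (hD1 m j))]
  refine ⟨fun n => D n.unpair.1 n.unpair.2, fun n => hD1 _ _, ?_, ?_⟩
  · have e1 : ∑' n : ℕ, μ (D n.unpair.1 n.unpair.2) = ∑' q : ℕ × ℕ, μ (D q.1 q.2) :=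
      Nat.pairEquiv.symm.tsum_eq (fun q : ℕ × ℕ => μ (D q.1 q.2))
    rw [e1, ENNReal.tsum_prod']
    have e2 : ∑' m, ∑' j, μ (D m j) ≤ ∑' m : ℕ, (2⁻¹ : ℝ≥0∞) ^ m :=
      ENNReal.tsum_le_tsum fun m => by rw [hsum m]; exact (hUm m).le
    refine ne_top_of_le_ne_top ?_ e2
    rw [ENNReal.tsum_geometric, ENNReal.one_sub_inv_two, inv_inv]
    exact ENNReal.ofNat_ne_top
  · intro z hz
    rw [frequently_atTop]
    intro N
    have h2 : ∀ m, ∃ j, z ∈ D m j := by
      intro m
      have := hUA m hz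
      rw [hD3 m, mem_iUnion] at this
      exact this
    obtain ⟨j, hj⟩ := h2 N
    refine ⟨Nat.pair N j, Nat.left_le_pair N j, ?_⟩
    simpa using hj

/-- uniform coding of null sets by reals -/
theorem null_code (μ : Measure X) [μ.OuterRegular] :
    ∃ C : ℕ → ℕ → Set X, (∀ n j, MeasurableSet (C n j)) ∧
    (∀ n j, μ (C n j) ≤ (4⁻¹ : ℝ≥0∞) ^ n) ∧
    ∀ A, μ A = 0 → ∃ x : ℕ → ℕ, A ⊆ {z | ∃ᶠ n in atTop, z ∈ C n (x n)} := by
  classical
  obtain ⟨e, he1, he2⟩ := exists_enum X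
  refine ⟨fun n j => if μ (e j) ≤ (4⁻¹ : ℝ≥0∞) ^ n then (e j : Set X) else ∅, ?_, ?_, ?_⟩
  · intro n j
    by_cases h : μ (e j) ≤ (4⁻¹ : ℝ≥0∞) ^ n
    · simp only [if_pos h]; exact alg_measurable (he1 j)
    · simp only [if_neg h]; exact MeasurableSet.empty
  · intro n j
    by_cases h : μ (e j) ≤ (4⁻¹ : ℝ≥0∞) ^ n
    · simp only [if_pos h]; exact h
    · simp only [if_neg h, measure_empty]; exact zero_le
  · intro A hA
    obtain ⟨E, hE1, hE2, hE3⟩ := null_seq μ hA
    have ht := ENNReal.tendsto_sum_nat_add (fun n => μ (E n)) hE2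
    have hex : ∀ i N : ℕ, ∃ n > N, ∑' k, μ (E (k + n)) ≤ (4⁻¹ : ℝ≥0∞) ^ i := by
      intro i N
      have h4 : (0 : ℝ≥0∞) < (4⁻¹ : ℝ≥0∞) ^ i := ENNReal.pow_pos (by simp) i
      have := (ht.eventually (gt_mem_nhds h4)).and (eventually_gt_atTop N)
      obtain ⟨n, hn1, hn2⟩ := this.exists
      exact ⟨n, hn2, hn1.le⟩
    choose nn hnn1 hnn2 using hex
    let t : ℕ → ℕ := fun i => Nat.rec (nn 0 0) (fun i s => nn (i + 1) s) i
    have ht1 : ∀ i, t i < t (i + 1) := fun i => hnn1 (i + 1) (t i)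
    have ht2 : ∀ i, ∑' k, μ (E (k + t i)) ≤ (4⁻¹ : ℝ≥0∞) ^ i := by
      intro i
      cases i with
      | zero => exact hnn2 0 0
      | succ i => exact hnn2 (i + 1) (t i)
    have htm : StrictMono t := strictMono_nat_of_lt_succ ht1
    let B : ℕ → Set X := fun i => ⋃ k ∈ Finset.Ico (t i) (t (i + 1)), E k
    have hB1 : ∀ i, B i ∈ alg X := fun i =>
      alg_isSetAlgebra.biUnion_mem (Finset.Ico (t i) (t (i + 1))) fun k _ => hE1 k
    have hB2 : ∀ i, μ (B i) ≤ (4⁻¹ : ℝ≥0∞) ^ i := by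
      intro i
      refine le_trans ?_ (ht2 i)
      refine (measure_biUnion_finset_le _ _).trans ?_
      have e1 : ∑ k ∈ Finset.Ico (t i) (t (i + 1)), μ (E k) =
          ∑ k ∈ Finset.range (t (i + 1) - t i), μ (E (k + t i)) := by
        rw [Finset.sum_Ico_eq_sum_range]
        exact Finset.sum_congr rfl fun k _ => by rw [add_comm]
      rw [e1]
      exact ENNReal.sum_le_tsum _
    have hx : ∀ i, ∃ j, e j = B i := fun i => he2 _ (hB1 i)
    choose x hxB using hx
    refine ⟨x, fun z hz => ?_⟩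
    rw [mem_ofPred_eq, frequently_atTop]
    intro N
    obtain ⟨k, hk, hzk⟩ := (frequently_atTop.1 (hE3 z hz)) (t N)
    -- find the block
    have hexi : ∃ i, k < t (i + 1) := ⟨k, by
      have : k + 1 ≤ t (k + 1) := htm.le_apply
      omega⟩
    obtain ⟨i, hi1, hi2⟩ : ∃ i, t i ≤ k ∧ k < t (i + 1) := by
      refine ⟨Nat.find hexi, ?_, Nat.find_spec hexi⟩
      by_contra hcon
      push Not at hcon
      rcases Nat.eq_zero_or_pos (Nat.find hexi) with h0 | h0
      · rw [h0] at hcon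
        have : t 0 ≤ t N := htm.monotone (Nat.zero_le N)
        omega
      · have := Nat.find_min hexi (m := Nat.find hexi - 1) (by omega)
        apply this
        rwa [show Nat.find hexi - 1 + 1 = Nat.find hexi by omega]
    refine ⟨i, ?_, ?_⟩
    · by_contra hcon
      have hcon' : i + 1 ≤ N := by omega
      have : t (i + 1) ≤ t N := htm.monotone hcon'
      omega
    · have h5 : μ (e (x i)) ≤ (4⁻¹ : ℝ≥0∞) ^ i := by
        rw [hxB]; exact hB2 i
      change z ∈ (if μ (e (x i)) ≤ (4⁻¹ : ℝ≥0∞) ^ i then (e (x i) : Set X) else ∅)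
      rw [if_pos h5, hxB]
      exact mem_biUnion (Finset.mem_coe.2 (Finset.mem_Ico.2 ⟨hi1, hi2⟩)) hzk

omit [TopologicalSpace X] [SecondCountableTopology X] [BorelSpace X] in
theorem null_slalom (μ : Measure X) {C : ℕ → ℕ → Set X}
    (hC : ∀ n j, μ (C n j) ≤ (4⁻¹ : ℝ≥0∞) ^ n)
    {S : ℕ → Finset ℕ} (hS : ∀ n, (S n).card ≤ n) :
    μ {z | ∃ᶠ n in atTop, ∃ j ∈ S n, z ∈ C n j} = 0 := by
  apply measure_setOfPred_frequently_eq_zero
  have h1 : ∀ n, μ {z | ∃ j ∈ S n, z ∈ C n j} ≤ (2⁻¹ : ℝ≥0∞) ^ n := by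
    intro n
    have e1 : {z | ∃ j ∈ S n, z ∈ C n j} = ⋃ j ∈ S n, C n j := by
      ext z; simp
    rw [e1]
    refine (measure_biUnion_finset_le _ _).trans ?_
    refine (Finset.sum_le_card_nsmul _ _ _ fun j _ => hC n j).trans ?_
    rw [nsmul_eq_mul]
    have e2 : (((S n).card : ℕ) : ℝ≥0∞) ≤ 2 ^ n := by
      have h2 : (S n).card ≤ 2 ^ n := (hS n).trans Nat.lt_two_pow_self.le
      exact_mod_cast h2
    refine (mul_le_mul_left e2 _).trans ?_
    rw [show (4⁻¹ : ℝ≥0∞) = 2⁻¹ * 2⁻¹ by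
      rw [← ENNReal.mul_inv (by simp) (by simp)]; norm_num]
    rw [mul_pow, ← mul_assoc, ← mul_pow, ENNReal.mul_inv_cancel (by simp) (by simp), one_pow,
      one_mul]
  refine ne_top_of_le_ne_top ?_ (ENNReal.tsum_le_tsum h1)
  rw [ENNReal.tsum_geometric, ENNReal.one_sub_inv_two, inv_inv]
  exact ENNReal.ofNat_ne_top

/-- the union of fewer than `bloc` null sets is null -/
theorem null_iUnion (μ : Measure X) [μ.OuterRegular] {ι : Type} (hι : #ι < bloc)
    {A : ι → Set X} (hA : ∀ i, μ (A i) = 0) : μ (⋃ i, A i) = 0 := by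
  obtain ⟨C, _, hC2, hC3⟩ := null_code μ
  choose x hx using fun i => hC3 (A i) (hA i)
  obtain ⟨s, hs1, hs2⟩ := exists_slalom hι x
  refine measure_mono_null ?_ (null_slalom μ hC2 hs1)
  refine Set.iUnion_subset fun i z hz => ?_
  have h1 : ∃ᶠ n in atTop, z ∈ C n (x i n) := hx i hz
  have h2 : ∀ᶠ n in atTop, x i n ∈ s n := hs2 i
  exact (h1.and_eventually h2).mono fun n hn => ⟨x i n, hn.2, hn.1⟩

end Q208
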