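import Mathlib
import Pool.Agent.Q82.QD.Stm

/-!
Project QD, job WB2: bounds of the ansatz away from the point of concentration.
-/

set_option autoImplicit false

open MeasureTheory Filter Topology Real InnerProductSpace Laplacian Set
open Pool.Agent.Q82.QC (E)

namespace Pool.Agent.Q82.QD

theorem wb2_pow {N b : ℝ} (hN : 0 < N) (hb : 2 * N ≤ b * N ^ 2) :
    N ^ 20 * Real.exp (-(b * N ^ 2)) ≤ (Nat.factorial 20 : ℝ) * Real.exp (-N) := by
  have h1 : N ^ 20 ≤ (Nat.factorial 20 : ℝ) * Real.exp N := by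
    have h := Real.pow_div_factorial_le_exp N hN.le 20
    rw [div_le_iff₀ (by positivity)] at h
    linarith
  have h2 : Real.exp (-(b * N ^ 2)) ≤ Real.exp (-(2 * N)) := Real.exp_le_exp.mpr (by linarith)
  calc N ^ 20 * Real.exp (-(b * N ^ 2))
      ≤ ((Nat.factorial 20 : ℝ) * Real.exp N) * Real.exp (-(2 * N)) := by
        refine mul_le_mul h1 h2 (Real.exp_pos _).le (by positivity)
    _ = (Nat.factorial 20 : ℝ) * Real.exp (-N) := by
        rw [mul_assoc, ← Real.exp_add]
        congr 2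
        ring

theorem wb2_x0 (x : E) (hx : x 0 ≤ 0) : 1 ≤ ‖x - x0‖ := by
  have h1 : ‖(x - x0) 0‖ ≤ ‖x - x0‖ := PiLp.norm_apply_le (x - x0) 0
  have h2 : (x - x0) 0 = x 0 - 1 := by simp [x0]
  rw [h2, Real.norm_eq_abs, abs_of_nonpos (by linarith)] at h1
  linarith

theorem wb2_fac : (1 : ℝ) ≤ (Nat.factorial 20 : ℝ) := by
  exact_mod_cast Nat.one_le_iff_ne_zero.mpr (Nat.factorial_ne_zero 20)

theorem wb2 (h1 : S_PP) : S_WB2 := by
  obtain ⟨-, -, hp1, hp2, -⟩ := h1
  intro F a C hD
  obtain ⟨⟨-, -, hF3⟩, ha, hC, hZ, -⟩ := hD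
  refine ⟨(Nat.factorial 20 : ℝ) * (Real.exp (4 * C) + 96), max 4000 (2 / a), by positivity,
    le_trans (by norm_num) (le_max_left _ _), fun N hN x hx hr => ?_⟩
  have hN1 : 4000 ≤ N := (le_max_left _ _).trans hN
  have hN2 : 2 / a ≤ N := (le_max_right _ _).trans hN
  have hN0 : 0 < N := by linarith
  have hfac := wb2_fac
  set r : ℝ := ‖x - x0‖ with hrdef
  set s : ℝ := (N ^ 5) ^ 2 * r ^ 2 with hsdef
  have hr0 : 0 ≤ r := norm_nonneg _
  have hs : N ^ 2 ≤ s := by
    have h2 : (1 / N ^ 4) ^ 2 ≤ r ^ 2 := pow_le_pow_left₀ (by positivity) hr 2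
    have h3 : (N ^ 5) ^ 2 * (1 / N ^ 4) ^ 2 = N ^ 2 := by field_simp
    rw [← h3]
    exact mul_le_mul_of_nonneg_left h2 (by positivity)
  have hs1 : 1 ≤ s := by nlinarith
  have hs0 : 0 < s := by linarith
  have ha2 : 2 * N ≤ a * N ^ 2 := by
    rw [div_le_iff₀ ha] at hN2
    nlinarith
  have hexp : Real.exp (4 * W F a N x) =
      Real.exp (-(a * (N ^ 5) ^ 2 * PP x) + 4 * (F s + a * s)) * (N ^ 5) ^ 4 := by
    have h4 : 4 * W F a N x = (-(a * (N ^ 5) ^ 2 * PP x) + 4 * (F s + a * s)) +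
        ((4 : ℕ) : ℝ) * Real.log (N ^ 5) := by
      unfold W bet
      push_cast
      ring
    rw [h4, Real.exp_add, Real.exp_nat_mul, Real.exp_log (by positivity)]
  constructor
  · rcases le_total 0 (x 0) with h0 | h0
    · -- near the concentration point
      have hPP := hp1 x hx h0
      have hb : -(a * (N ^ 5) ^ 2 * PP x) + 4 * (F s + a * s) ≤ -(a * N ^ 2) + 4 * C := by
        have h5 := hZ s hs1
        have h6 : 0 ≤ Real.log s := Real.log_nonneg hs1
        have h7 : a * s ≤ a * (N ^ 5) ^ 2 * PP x := by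
          rw [hsdef]
          have : a * ((N ^ 5) ^ 2 * r ^ 2) = a * (N ^ 5) ^ 2 * r ^ 2 := by ring
          rw [this]
          exact mul_le_mul_of_nonneg_left hPP (by positivity)
        have h8 : a * N ^ 2 ≤ a * s := mul_le_mul_of_nonneg_left hs ha.le
        linarith
      have h9 := wb2_pow hN0 ha2
      calc Real.exp (4 * W F a N x)
          = Real.exp (-(a * (N ^ 5) ^ 2 * PP x) + 4 * (F s + a * s)) * (N ^ 5) ^ 4 := hexp
        _ ≤ Real.exp (-(a * N ^ 2) + 4 * C) * (N ^ 5) ^ 4 :=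
            mul_le_mul_of_nonneg_right (Real.exp_le_exp.mpr hb) (by positivity)
        _ = Real.exp (4 * C) * (N ^ 20 * Real.exp (-(a * N ^ 2))) := by
            rw [Real.exp_add]
            ring
        _ ≤ Real.exp (4 * C) * ((Nat.factorial 20 : ℝ) * Real.exp (-N)) :=
            mul_le_mul_of_nonneg_left h9 (Real.exp_pos _).le
        _ ≤ (Nat.factorial 20 : ℝ) * (Real.exp (4 * C) + 96) *
            (Real.exp (-(a * N ^ 10 * ‖x - x1‖ ^ 2)) + Real.exp (-N)) := by
            have e1 := Real.exp_pos (-(a * N ^ 10 * ‖x - x1‖ ^ 2))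
            have e2 := Real.exp_pos (-N)
            have e3 := Real.exp_pos (4 * C)
            have e4 : Real.exp (4 * C) * ((Nat.factorial 20 : ℝ) * Real.exp (-N)) ≤
                (Nat.factorial 20 : ℝ) * (Real.exp (4 * C) + 96) * Real.exp (-N) := by
              have : 0 ≤ (Nat.factorial 20 : ℝ) * 96 * Real.exp (-N) := by positivity
              nlinarith
            have e5 : 0 ≤ (Nat.factorial 20 : ℝ) * (Real.exp (4 * C) + 96) *
                Real.exp (-(a * N ^ 10 * ‖x - x1‖ ^ 2)) := by positivity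
            nlinarith
    · -- far from it
      have hPP := hp2 x hx h0
      have hr1 : 1 ≤ r := wb2_x0 x h0
      have hsL : (N ^ 5) ^ 2 ≤ s := by
        rw [hsdef]
        have : (1 : ℝ) ≤ r ^ 2 := by nlinarith
        nlinarith [pow_pos hN0 10, sq_nonneg (N ^ 5)]
      have hlog : Real.log ((N ^ 5) ^ 2) ≤ Real.log s := Real.log_le_log (by positivity) hsL
      have hlog2 : Real.log ((N ^ 5) ^ 2) = 2 * Real.log (N ^ 5) := by
        rw [Real.log_pow]
        norm_num
      have hb : -(a * (N ^ 5) ^ 2 * PP x) + 4 * (F s + a * s) ≤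
          -(a * N ^ 10 * ‖x - x1‖ ^ 2) + 4 * C + (-(((4 : ℕ) : ℝ) * Real.log (N ^ 5))) := by
        have h5 := hZ s hs1
        have h7 : a * N ^ 10 * ‖x - x1‖ ^ 2 ≤ a * (N ^ 5) ^ 2 * PP x := by
          have : a * N ^ 10 = a * (N ^ 5) ^ 2 := by ring
          rw [this]
          exact mul_le_mul_of_nonneg_left hPP (by positivity)
        push_cast
        linarith
      have hexp2 : Real.exp (-(a * N ^ 10 * ‖x - x1‖ ^ 2) + 4 * C +
          (-(((4 : ℕ) : ℝ) * Real.log (N ^ 5)))) * (N ^ 5) ^ 4 =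
          Real.exp (4 * C) * Real.exp (-(a * N ^ 10 * ‖x - x1‖ ^ 2)) := by
        rw [Real.exp_add, Real.exp_add, Real.exp_neg (((4 : ℕ) : ℝ) * Real.log (N ^ 5)),
          Real.exp_nat_mul, Real.exp_log (by positivity)]
        have hne : (N ^ 5) ^ 4 ≠ 0 := by positivity
        field_simp
      calc Real.exp (4 * W F a N x)
          = Real.exp (-(a * (N ^ 5) ^ 2 * PP x) + 4 * (F s + a * s)) * (N ^ 5) ^ 4 := hexp
        _ ≤ Real.exp (-(a * N ^ 10 * ‖x - x1‖ ^ 2) + 4 * C +
              (-(((4 : ℕ) : ℝ) * Real.log (N ^ 5)))) * (N ^ 5) ^ 4 :=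
            mul_le_mul_of_nonneg_right (Real.exp_le_exp.mpr hb) (by positivity)
        _ = Real.exp (4 * C) * Real.exp (-(a * N ^ 10 * ‖x - x1‖ ^ 2)) := hexp2
        _ ≤ (Nat.factorial 20 : ℝ) * (Real.exp (4 * C) + 96) *
            (Real.exp (-(a * N ^ 10 * ‖x - x1‖ ^ 2)) + Real.exp (-N)) := by
            have e1 := Real.exp_pos (-(a * N ^ 10 * ‖x - x1‖ ^ 2))
            have e2 := Real.exp_pos (-N)
            have e3 := Real.exp_pos (4 * C)
            have e6 : Real.exp (4 * C) ≤ (Nat.factorial 20 : ℝ) * (Real.exp (4 * C) + 96) := by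
              nlinarith
            refine mul_le_mul e6 (by linarith) e1.le (by positivity)
  · -- the bilaplacian
    have h5 := hF3 s hs0.le
    have h6 : 0 ≤ Real.log (1 + s) := Real.log_nonneg (by linarith)
    have h7 : 4 * F s ≤ ((4 : ℕ) : ℝ) * Real.log 2 + (-(1 / 2000 * N ^ 2)) := by
      have h8 : qq = 1 / 8000 := rfl
      rw [h8] at h5
      push_cast
      nlinarith
    have h9 : Real.exp (4 * F s) ≤ 16 * Real.exp (-(1 / 2000 * N ^ 2)) := by
      have h10 := Real.exp_le_exp.mpr h7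
      rw [Real.exp_add, Real.exp_nat_mul, Real.exp_log (by norm_num)] at h10
      norm_num at h10 ⊢
      exact h10
    have h11 := wb2_pow (N := N) (b := 1 / 2000) hN0 (by nlinarith)
    calc B F N x = N ^ 20 * (6 * Real.exp (4 * F s)) := by
          unfold B
          rw [← hrdef, ← hsdef]
          ring
      _ ≤ N ^ 20 * (6 * (16 * Real.exp (-(1 / 2000 * N ^ 2)))) := by
          refine mul_le_mul_of_nonneg_left ?_ (by positivity)
          linarith
      _ = 96 * (N ^ 20 * Real.exp (-(1 / 2000 * N ^ 2))) := by ring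
      _ ≤ 96 * ((Nat.factorial 20 : ℝ) * Real.exp (-N)) :=
          mul_le_mul_of_nonneg_left h11 (by norm_num)
      _ ≤ (Nat.factorial 20 : ℝ) * (Real.exp (4 * C) + 96) * Real.exp (-N) := by
          have e2 := Real.exp_pos (-N)
          have e3 := Real.exp_pos (4 * C)
          have : 0 ≤ (Nat.factorial 20 : ℝ) * Real.exp (4 * C) * Real.exp (-N) := by positivity
          nlinarith

end Pool.Agent.Q82.QD
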