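import Mathlib

/-!
# The localization cardinal

Basic facts on the least size `bloc` of a family of reals which is not captured by one slalom.
-/

open Filter Cardinal Set

namespace Q208

/-- `x` is captured by `s`: `x k ∈ s k` for almost all `k`. -/
def Captured (x : ℕ → ℕ) (s : ℕ → Finset ℕ) : Prop := ∀ᶠ k in atTop, x k ∈ s k

/-- `s` is a slalom of width `w`. -/
def Slal (w : ℕ → ℕ) (s : ℕ → Finset ℕ) : Prop := ∀ n, (s n).card ≤ w n

/-- no slalom of width `n ↦ n` captures all members of the family. -/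
def Uncaptured {ι : Type} (w : ℕ → ℕ) (x : ι → ℕ → ℕ) : Prop :=
  ¬ ∃ s, Slal w s ∧ ∀ i, Captured (x i) s

/-- the localization cardinal (which equals the additivity of the null ideal). -/
noncomputable def bloc : Cardinal.{0} :=
  sInf {κ : Cardinal.{0} | ∃ F : Set (ℕ → ℕ), Uncaptured (fun n => n) (fun x : F => x.1) ∧ #F = κ}

theorem bloc_le_of_uncaptured {ι : Type} {x : ι → ℕ → ℕ} (h : Uncaptured (fun n => n) x) :
    bloc ≤ #ι := by
  refine le_trans (csInf_le' ⟨Set.range x, ?_, rfl⟩) Cardinal.mk_range_le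
  rintro ⟨s, hs, hs'⟩
  exact h ⟨s, hs, fun i => hs' ⟨x i, i, rfl⟩⟩

theorem exists_slalom {ι : Type} (h : #ι < bloc) (x : ι → ℕ → ℕ) :
    ∃ s, Slal (fun n => n) s ∧ ∀ i, Captured (x i) s := by
  by_contra hno
  exact absurd (bloc_le_of_uncaptured hno) (not_le.mpr h)

theorem uncaptured_univ : Uncaptured (fun n => n) (fun x : (Set.univ : Set (ℕ → ℕ)) => x.1) := by
  rintro ⟨s, hs, hs'⟩
  have h1 : ∀ n, ∃ m, m ∉ s n := fun n => Infinite.exists_notMem_finset (s n)
  choose g hg using h1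
  obtain ⟨n, hn⟩ := (hs' ⟨g, trivial⟩).exists
  exact hg n hn

theorem bloc_mem : ∃ F : Set (ℕ → ℕ), Uncaptured (fun n => n) (fun x : F => x.1) ∧ #F = bloc :=
  csInf_mem (s := {κ : Cardinal.{0} | ∃ F : Set (ℕ → ℕ),
    Uncaptured (fun n => n) (fun x : F => x.1) ∧ #F = κ}) ⟨_, Set.univ, uncaptured_univ, rfl⟩

/-- The index type of size `bloc`. -/
abbrev BI : Type := bloc.ord.ToType

theorem mk_BI : #BI = bloc := by simp [BI]

theorem exists_family : ∃ z : BI → ℕ → ℕ, Uncaptured (fun n => n) z := by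
  obtain ⟨F, hF, hc⟩ := bloc_mem
  have : #BI = #F := by rw [mk_BI, hc]
  obtain ⟨e⟩ := Cardinal.eq.mp this
  refine ⟨fun i => (e i).1, ?_⟩
  rintro ⟨s, hs, hs'⟩
  refine hF ⟨s, hs, fun x => ?_⟩
  have := hs' (e.symm x)
  simpa using this

theorem aleph0_le_bloc : ℵ₀ ≤ bloc := by
  by_contra hlt
  push Not at hlt
  obtain ⟨F, hF, hc⟩ := bloc_mem
  rw [← hc] at hlt
  have hfin : F.Finite := Cardinal.lt_aleph0_iff_set_finite.mp hlt
  classical
  refine hF ⟨fun n => if hfin.toFinset.card ≤ n then hfin.toFinset.image (fun x => x n) else ∅,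
    fun n => ?_, fun x => ?_⟩
  · beta_reduce
    split_ifs with h
    · exact Finset.card_image_le.trans h
    · simp
  · unfold Captured
    filter_upwards [eventually_ge_atTop hfin.toFinset.card] with n hn
    rw [if_pos hn]
    exact Finset.mem_image.mpr ⟨x.1, hfin.mem_toFinset.mpr x.2, rfl⟩

theorem mk_Iio_lt (ξ : BI) : #(Set.Iio ξ) < bloc := Cardinal.mk_Iio_toType_ord_lt ξ

theorem mk_Iic_lt (ξ : BI) : #(Set.Iic ξ) < bloc := by
  have h1 : Set.Iic ξ = insert ξ (Set.Iio ξ) := by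
    ext m; simp [le_iff_eq_or_lt]
  rw [h1]
  refine (Cardinal.mk_insert_le).trans_lt ?_
  exact Cardinal.add_lt_of_lt aleph0_le_bloc (mk_Iio_lt ξ) (one_lt_aleph0.trans_le aleph0_le_bloc)

theorem mk_lt_of_bounded {B : Set BI} {ξ : BI} (h : ∀ b ∈ B, b ≤ ξ) : #B < bloc :=
  (Cardinal.mk_le_mk_of_subset (fun b hb => h b hb)).trans_lt (mk_Iic_lt ξ)

/-- A family which is not captured by slaloms of width `n ^ 2`. -/
theorem exists_family_sq : ∃ z : BI → ℕ → ℕ, Uncaptured (fun n => n ^ 2) z := by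
  obtain ⟨z0, hz0⟩ := exists_family
  refine ⟨fun i n => Encodable.encode ((List.range ((n + 1) ^ 2)).map (z0 i)), ?_⟩
  rintro ⟨s, hs, hs'⟩
  let dec : ℕ → List ℕ := fun c => (Encodable.decode c : Option (List ℕ)).getD []
  refine hz0 ⟨fun k => (s (Nat.sqrt k)).image (fun c => (dec c).getD k 0), fun k => ?_,
    fun i => ?_⟩
  · refine Finset.card_image_le.trans ((hs _).trans ?_)
    exact Nat.sqrt_le' k
  · have h1 := hs' i
    unfold Captured at h1 ⊢
    have h2 : Tendsto Nat.sqrt atTop atTop := by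
      refine tendsto_atTop_atTop.mpr fun b => ⟨b ^ 2, fun a ha => ?_⟩
      exact Nat.le_sqrt'.mpr ha
    filter_upwards [h2.eventually h1] with k hk
    refine Finset.mem_image.mpr ⟨_, hk, ?_⟩
    simp only [dec, Encodable.encodek, Option.getD_some]
    have hlt : k < (Nat.sqrt k + 1) ^ 2 := Nat.lt_succ_sqrt' k
    rw [List.getD_eq_getElem _ _ (by simpa using hlt)]
    simp

/-- Key lemma: there is a sequence of length `bloc` of which every slalom captures fewer than
`bloc` many members. -/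
theorem exists_strong : ∃ y : BI → ℕ → ℕ, ∀ s, Slal (fun n => n) s →
    #{ξ : BI | Captured (y ξ) s} < bloc := by
  obtain ⟨z, hz⟩ := exists_family_sq
  have h1 : ∀ ξ : BI, ∃ s, Slal (fun n => n) s ∧ ∀ η : Set.Iic ξ, Captured (z η.1) s :=
    fun ξ => exists_slalom (mk_Iic_lt ξ) _
  choose s hs1 hs2 using h1
  refine ⟨fun ξ n => Encodable.encode (s ξ n), fun t ht => ?_⟩
  by_contra hge
  push Not at hge
  have hub : ∀ η : BI, ∃ ξ, η ≤ ξ ∧ Captured (fun n => Encodable.encode (s ξ n)) t := by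
    intro η
    by_contra hno
    push Not at hno
    refine absurd (mk_lt_of_bounded (B := {ξ : BI | Captured
      (fun n => Encodable.encode (s ξ n)) t}) (ξ := η) ?_) (not_lt.mpr hge)
    intro ξ hξ
    by_contra hlt
    exact hno ξ (not_le.mp hlt).le hξ
  classical
  let dec : ℕ → Finset ℕ := fun c => (Encodable.decode c : Option (Finset ℕ)).getD ∅
  refine hz ⟨fun n => (t n).biUnion fun c => if (dec c).card ≤ n then dec c else ∅, fun n => ?_,
    fun η => ?_⟩
  · refine Finset.card_biUnion_le.trans ?_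
    calc ∑ c ∈ t n, (if (dec c).card ≤ n then dec c else ∅).card ≤ ∑ c ∈ t n, n := by
          refine Finset.sum_le_sum fun c _ => ?_
          split_ifs with h
          · exact h
          · simp
      _ = (t n).card * n := by simp
      _ ≤ n ^ 2 := by rw [pow_two]; exact Nat.mul_le_mul_right _ (ht n)
  · obtain ⟨ξ, hξ1, hξ2⟩ := hub η
    have h3 := hs2 ξ ⟨η, hξ1⟩
    unfold Captured at *
    filter_upwards [hξ2, h3] with n hn1 hn2
    refine Finset.mem_biUnion.mpr ⟨_, hn1, ?_⟩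
    simp only [dec, Encodable.encodek, Option.getD_some]
    rw [if_pos (hs1 ξ n)]
    exact hn2

theorem exists_bound {ι : Type} (h : #ι < bloc) (x : ι → ℕ → ℕ) :
    ∃ g : ℕ → ℕ, ∀ i, ∀ᶠ k in atTop, x i k ≤ g k := by
  obtain ⟨s, _, hs⟩ := exists_slalom h x
  refine ⟨fun k => (s k).sup id, fun i => ?_⟩
  filter_upwards [hs i] with k hk
  exact Finset.le_sup (f := id) hk

theorem exists_evade {ι : Type} (h : #ι < bloc) (x : ι → ℕ → ℕ) :
    ∃ g : ℕ → ℕ, ∀ i, ∀ᶠ k in atTop, x i k ≠ g k := by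
  obtain ⟨s, _, hs⟩ := exists_slalom h x
  have h1 : ∀ n, ∃ m, m ∉ s n := fun n => Infinite.exists_notMem_finset (s n)
  choose g hg using h1
  refine ⟨g, fun i => ?_⟩
  filter_upwards [hs i] with k hk hk'
  exact hg k (hk' ▸ hk)

end Q208
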