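import Pool.Agent.Q256.UG.Stm

/-!
# Project UG, job VND
-/

set_option autoImplicit false

namespace Pool.Agent.Q208.UG_VND

open Finset MvPolynomial
open Pool.Agent.Q256.UP (PBox card_pbox finite_pbox pbox_add)
open Pool.Agent.Q256.UI (ev tc Q kap rho)
open Pool.Agent.Q256.UG

theorem biUnion_bound {α β : Type} [DecidableEq α] (Θ : Finset α) (S : α → Set β) (M : ℝ)
    (h : ∀ θ ∈ Θ, (S θ).Finite ∧ ((S θ).ncard : ℝ) ≤ M) :
    (⋃ θ ∈ Θ, S θ).Finite ∧ ((⋃ θ ∈ Θ, S θ).ncard : ℝ) ≤ #Θ * M := by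
  induction Θ using Finset.induction_on with
  | empty => simp
  | insert a s ha ih =>
    obtain ⟨h1, h2⟩ := ih fun θ hθ => h θ (mem_insert_of_mem hθ)
    obtain ⟨h3, h4⟩ := h a (mem_insert_self a s)
    rw [Finset.set_biUnion_insert, card_insert_of_notMem ha]
    refine ⟨h3.union h1, ?_⟩
    have h5 : ((S a ∪ ⋃ x ∈ s, S x).ncard : ℝ) ≤ (S a).ncard + (⋃ x ∈ s, S x).ncard := by
      exact_mod_cast Set.ncard_union_le _ _
    push_cast
    linarith

theorem cand_bound {d : ℕ} {F : MvPolynomial (Fin 2) ℤ}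
    (hN : {θ : ℝ | Th d F θ}.Finite ∧ {θ : ℝ | Th d F θ}.ncard ≤ d) (P : ℝ → Prop)
    (hP : ∀ θ, P θ → Th d F θ) (S : ℝ → Set (ℤ × ℤ)) {M : ℝ} (hM : 0 ≤ M)
    (h : ∀ θ, P θ → (S θ).Finite ∧ ((S θ).ncard : ℝ) ≤ M) :
    {p | ∃ θ, P θ ∧ p ∈ S θ}.Finite ∧ (({p | ∃ θ, P θ ∧ p ∈ S θ}.ncard : ℕ) : ℝ) ≤ d * M := by
  classical
  have hfin : {θ : ℝ | P θ}.Finite := hN.1.subset hP
  have hcard : hfin.toFinset.card ≤ d := by
    rw [← Set.ncard_eq_toFinset_card _ hfin]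
    exact (Set.ncard_le_ncard hP hN.1).trans hN.2
  have he : {p | ∃ θ, P θ ∧ p ∈ S θ} = ⋃ θ ∈ hfin.toFinset, S θ := by
    ext p
    simp
  rw [he]
  obtain ⟨h1, h2⟩ := biUnion_bound hfin.toFinset S M fun θ hθ => h θ (by simpa using hθ)
  refine ⟨h1, h2.trans (mul_le_mul_of_nonneg_right ?_ hM)⟩
  exact_mod_cast hcard

theorem card_le_box {d H : ℕ} {V : Set (MvPolynomial (Fin 2) ℤ)} (hV : V ⊆ PBox d H) :
    Nat.card V ≤ (2 * H + 1) ^ NC d := by
  have h1 := Nat.card_mono (finite_pbox d H) hV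
  rwa [card_pbox] at h1

theorem pbox_mono {d d' B B' : ℕ} (hd : d ≤ d') (hB : B ≤ B') : PBox d B ⊆ PBox d' B' := by
  rintro F ⟨h1, h2⟩
  exact ⟨h1.trans hd, fun α => (h2 α).trans (by exact_mod_cast hB)⟩

theorem big {d H T : ℕ} (hd : 7 ≤ d) (hH : 2 ≤ H) (h : H ^ (2 * d - 3) ≤ T ^ 2) : H + 1 ≤ T := by
  by_contra hcon
  have h1 : T ≤ H := by omega
  have h2 : T ^ 2 ≤ H ^ 2 := Nat.pow_le_pow_left h1 2
  have h3 : H ^ 2 < H ^ (2 * d - 3) := Nat.pow_lt_pow_right (by omega) (by omega)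
  omega

theorem NC_ge {d : ℕ} (hd : 7 ≤ d) : 36 ≤ NC d := by
  have h1 : (9).choose 2 ≤ (d + 2).choose 2 := Nat.choose_le_choose 2 (by omega)
  have h2 : (9).choose 2 = 36 := by decide
  unfold NC
  omega

theorem notRS {d H : ℕ} {F F' : MvPolynomial (Fin 2) ℤ} (h : ∀ b a : ℤ, ld d F' b a = ld d F b a)
    (hF : F ∉ RS d H) : F' ∉ RS d H := by
  rintro ⟨a, b, h1, h2, h3, h4, h5⟩
  exact hF ⟨a, b, h1, h2, h3, h4, by rw [← h]; exact h5⟩

theorem notRD {d H : ℕ} {F F' : MvPolynomial (Fin 2) ℤ} (h : ∀ b a : ℤ, ld d F' b a = ld d F b a)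
    (h' : ∀ θ : ℝ, rho d (tc F' θ) = rho d (tc F θ)) (hF : F ∉ RD d H) : F' ∉ RD d H := by
  rintro ⟨a, b, h1, h2, h3, h4, h5, h6⟩
  exact hF ⟨a, b, h1, h2, h3, h4, by rw [← h]; exact h5, by rw [← h']; exact h6⟩

theorem Th_congr {d : ℕ} {F F' : MvPolynomial (Fin 2) ℤ} {θ : ℝ}
    (h : ∀ j : ℕ, tc F' θ d j = tc F θ d j) (hF : Th d F θ) : Th d F' θ :=
  ⟨hF.abs, by rw [h]; exact hF.zero, by rw [h]; exact hF.one⟩

end Pool.Agent.Q208.UG_VND

namespace Pool.Agent.Q208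

open Finset MvPolynomial
open Pool.Agent.Q256.UP (PBox card_pbox finite_pbox pbox_add)
open Pool.Agent.Q256.UI (ev tc Q kap rho)
open Pool.Agent.Q256.UG Pool.Agent.Q208.UG_VND

theorem vnd : S_TCB → S_CNG → S_NTH → S_INV → S_CMG → S_VND := by
  intro hTCB hCNG hNTH hINV hCMG d hd
  obtain ⟨A1, hA1, hT⟩ := hTCB d (d - 2) (by omega)
  refine ⟨max A1 (((d - 3 : ℕ) : ℝ) * 2 ^ (d - 4)), le_max_of_le_left hA1, fun A hA => ?_⟩
  have hAA1 : A1 ≤ A := (le_max_left _ _).trans hA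
  have hAc : ((d - 3 : ℕ) : ℝ) * 2 ^ (d - 4) ≤ A := (le_max_right _ _).trans hA
  have hA' : 1 ≤ A := hA1.trans hAA1
  obtain ⟨C1, H0, hC1, hH0, hC⟩ := hCNG d (d - 2) A hd hA'
  obtain ⟨H1, hH1⟩ := exists_nat_ge (max H0 2)
  have hH10 : H0 ≤ H1 := (le_max_left _ _).trans hH1
  have hH12 : 2 ≤ H1 := by exact_mod_cast (le_max_right _ _).trans hH1
  have hNC := NC_ge hd
  obtain ⟨Cs, hCs⟩ : ∃ Cs : ℝ, Cs = (2 * (H1 : ℝ) + 1) ^ NC d := ⟨_, rfl⟩
  obtain ⟨Cb, hCb⟩ : ∃ Cb : ℝ, Cb = d * C1 * (3 * ((d - 2 : ℕ) : ℝ)) ^ NC d := ⟨_, rfl⟩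
  have hCs1 : 1 ≤ Cs := by
    rw [hCs]
    exact one_le_pow₀ (by have : (0 : ℝ) ≤ H1 := by positivity
                          linarith)
  refine ⟨max Cs Cb, le_max_of_le_left hCs1, fun H T hH hHT => ?_⟩
  have hH1r : (1 : ℝ) ≤ H := by exact_mod_cast hH
  have hHp : (1 : ℝ) ≤ (H : ℝ) ^ (NC d - 3) := one_le_pow₀ hH1r
  have hsubV : VN d A H T ⊆ PBox d H := fun F hF => hF.1
  rcases le_total H H1 with hle | hge
  · -- small heights
    have h1 : (Nat.card (VN d A H T) : ℝ) ≤ ((2 * H + 1) ^ NC d : ℕ) := by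
      exact_mod_cast card_le_box hsubV
    have h2 : (((2 * H + 1) ^ NC d : ℕ) : ℝ) ≤ Cs := by
      rw [hCs]
      push_cast
      have : (H : ℝ) ≤ H1 := by exact_mod_cast hle
      gcongr
    calc _ ≤ Cs := h1.trans h2
      _ ≤ max Cs Cb * 1 := by rw [mul_one]; exact le_max_left _ _
      _ ≤ _ := mul_le_mul_of_nonneg_left hHp (by linarith [le_max_left Cs Cb])
  -- large heights
  have hH2 : 2 ≤ H := hH12.trans hge
  have hHH0 : H0 ≤ H := hH10.trans (by exact_mod_cast hge)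
  have hHT1 := big hd hH2 hHT
  have hHT' : (H : ℝ) ^ (2 * d - 3) ≤ (T : ℝ) ^ 2 := by exact_mod_cast hHT
  have hT0 : (0 : ℝ) < T := by
    have : 0 < T := by omega
    exact_mod_cast this
  obtain ⟨W, hW⟩ : ∃ W : ℝ, W = A * H * (T : ℝ) ^ (d - 4) := ⟨_, rfl⟩
  have hW0 : 0 ≤ W := by
    rw [hW]
    positivity
  have key := hCMG d H (d - 4) (d * (C1 * H)) (VN d A H T)
    {F | F ∈ PBox d ((d - 2) * H) ∧ F ∉ RS d H ∧ F ∉ RD d H}
    (fun F => {p | ∃ θ, (Th d F θ ∧ 1 / 4 < |rho d (tc F θ)|) ∧ p ∈ Ap d F θ A H T W}) hsubV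
    ((finite_pbox d ((d - 2) * H)).subset fun F hF => hF.1) (by positivity)
    (by
      rintro F ⟨hFb, hRS, hRD, x, y, θ, hx1, hx2, hyx, hF0, hTh, hyθ, hrho⟩
      have hx0 : 0 ≤ x := by
        have : (0 : ℤ) ≤ T := by positivity
        omega
      have hxa : |x| = x := abs_of_nonneg hx0
      refine ⟨(x, y), ?_, hF0, fun G hG hGv => ?_⟩
      · show (H : ℤ) + 1 ≤ |x|
        rw [hxa]
        have : ((H + 1 : ℕ) : ℤ) ≤ T := by exact_mod_cast hHT1
        push_cast at this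
        omega
      · obtain ⟨i1, i2, i3⟩ := hINV.1 d F G (by omega) (hG.1.trans (by omega))
        have hbox : F + G ∈ PBox d ((d - 2) * H) := by
          have h1 := pbox_add hFb (pbox_mono (d' := d) (by omega) le_rfl hG)
          have h2 : H + (d - 4 + 1) * H = (d - 2) * H := by
            have h3 : d - 2 = (d - 4 + 1) + 1 := by omega
            rw [h3]
            ring
          rwa [h2] at h1
        refine ⟨⟨hbox, notRS i2 hRS, notRD i2 i3 hRD⟩, θ, ⟨Th_congr (i1 θ) hTh, ?_⟩, ?_⟩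
        · rw [i3]
          exact hrho
        · refine ⟨?_, ?_, ?_, ?_⟩
          · show (T : ℝ) ≤ (x : ℝ)
            exact_mod_cast hx1
          · show (x : ℝ) ≤ 2 * (T : ℝ)
            exact_mod_cast hx2
          · rw [i1]
            exact hyθ
          · have h1 : eval ![x, y] (F + G) = eval ![x, y] G := by
              rw [map_add, hF0, zero_add]
            show |((eval ![x, y] (F + G) : ℤ) : ℝ)| ≤ W
            rw [h1]
            have h2 : |((eval ![x, y] G : ℤ) : ℝ)| ≤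
                (((d - 4 : ℕ) : ℝ) + 1) * H * (x : ℝ) ^ (d - 4) := by
              have h3 : |eval ![x, y] G| ≤ ((d - 4 : ℕ) + 1) * H * |x| ^ (d - 4) := hGv
              rw [hxa] at h3
              exact_mod_cast h3
            have h4 : (x : ℝ) ^ (d - 4) ≤ (2 * (T : ℝ)) ^ (d - 4) := by
              have h5 : (x : ℝ) ≤ 2 * (T : ℝ) := by exact_mod_cast hx2
              have h6 : (0 : ℝ) ≤ x := by exact_mod_cast hx0
              gcongr
            have h7 : (((d - 4 : ℕ) : ℝ) + 1) = ((d - 3 : ℕ) : ℝ) := by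
              have : d - 3 = (d - 4) + 1 := by omega
              rw [this]
              push_cast
              ring
            rw [h7] at h2
            calc _ ≤ ((d - 3 : ℕ) : ℝ) * H * (x : ℝ) ^ (d - 4) := h2
              _ ≤ ((d - 3 : ℕ) : ℝ) * H * (2 * (T : ℝ)) ^ (d - 4) :=
                mul_le_mul_of_nonneg_left h4 (by positivity)
              _ = (((d - 3 : ℕ) : ℝ) * 2 ^ (d - 4)) * (H * (T : ℝ) ^ (d - 4)) := by
                rw [mul_pow]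
                ring
              _ ≤ A * (H * (T : ℝ) ^ (d - 4)) := mul_le_mul_of_nonneg_right hAc (by positivity)
              _ = W := by
                rw [hW]
                ring)
    (by
      rintro F ⟨hFb, hRS, hRD⟩
      refine cand_bound (hNTH d F) _ (fun θ h => h.1) _ (by positivity) ?_
      rintro θ ⟨hTh, hrho⟩
      exact hC H T W θ F hHH0 hT0 hHT' (hT A hAA1 H F θ hH hFb hTh) hRS hRD hW0 hW.le hrho)
  have hB : (Nat.card {F | F ∈ PBox d ((d - 2) * H) ∧ F ∉ RS d H ∧ F ∉ RD d H} : ℝ) ≤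
      (3 * ((d - 2 : ℕ) : ℝ)) ^ NC d * (H : ℝ) ^ NC d := by
    have h1 : Nat.card {F | F ∈ PBox d ((d - 2) * H) ∧ F ∉ RS d H ∧ F ∉ RD d H} ≤
        (2 * ((d - 2) * H) + 1) ^ NC d := card_le_box fun F hF => hF.1
    have h2 : 2 * ((d - 2) * H) + 1 ≤ 3 * (d - 2) * H := by
      have h3 : 1 ≤ (d - 2) * H := Nat.mul_pos (by omega) (by omega)
      have h4 : 3 * (d - 2) * H = 3 * ((d - 2) * H) := by ring
      omega
    have h5 := h1.trans (Nat.pow_le_pow_left h2 (NC d))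
    rw [mul_pow] at h5
    exact_mod_cast h5
  have hpow : (H : ℝ) ^ 4 ≤ ((H : ℝ) + 1) ^ (d - 4 + 1) :=
    calc (H : ℝ) ^ 4 ≤ (H : ℝ) ^ (d - 4 + 1) := pow_le_pow_right₀ hH1r (by omega)
      _ ≤ _ := pow_le_pow_left₀ (by linarith) (by linarith) _
  have hfin : (Nat.card (VN d A H T) : ℝ) * (H : ℝ) ^ 4 ≤
      Cb * (H : ℝ) ^ (NC d - 3) * (H : ℝ) ^ 4 := by
    have e1 : (H : ℝ) ^ (NC d - 3) * (H : ℝ) ^ 4 = (H : ℝ) * (H : ℝ) ^ NC d := by
      rw [← pow_add, ← pow_succ']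
      congr 1
      omega
    calc _ ≤ (Nat.card (VN d A H T) : ℝ) * ((H : ℝ) + 1) ^ (d - 4 + 1) :=
          mul_le_mul_of_nonneg_left hpow (by positivity)
      _ ≤ d * (C1 * H) * Nat.card {F | F ∈ PBox d ((d - 2) * H) ∧ F ∉ RS d H ∧ F ∉ RD d H} := key
      _ ≤ d * (C1 * H) * ((3 * ((d - 2 : ℕ) : ℝ)) ^ NC d * (H : ℝ) ^ NC d) :=
          mul_le_mul_of_nonneg_left hB (by positivity)
      _ = Cb * ((H : ℝ) * (H : ℝ) ^ NC d) := by
          rw [hCb]
          ring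
      _ = _ := by
          rw [← e1]
          ring
  have h1 := le_of_mul_le_mul_right hfin (by positivity)
  exact h1.trans (mul_le_mul_of_nonneg_right (le_max_right _ _) (by positivity))

end Pool.Agent.Q208
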