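import Pool.Agent.Q256.UG.Stm
import Pool.Agent.Q208.UG_VND

/-!
# Project UG, job VDG
-/

set_option autoImplicit false

namespace Pool.Agent.Q208.UG_VDG

open Finset MvPolynomial
open Pool.Agent.Q256.UP (PBox card_pbox finite_pbox pbox_add)
open Pool.Agent.Q256.UI (ev tc Q kap rho)
open Pool.Agent.Q256.UG Pool.Agent.Q208.UG_VND

/-- The part of `VD` with `g ≤ |f'(θ)| ≤ 2 g`. -/
def VG (d : ℕ) (A : ℝ) (H T : ℕ) (g : ℝ) : Set (MvPolynomial (Fin 2) ℤ) :=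
  {F | F ∈ PBox d H ∧ F ∉ RS d H ∧ F ∉ RD d H ∧ ∃ (x y : ℤ) (θ : ℝ), (T : ℤ) ≤ x ∧ x ≤ 2 * T ∧
    |y| ≤ x ∧ eval ![x, y] F = 0 ∧ Th d F θ ∧ |(y : ℝ) - θ * x| ≤ A * H / |tc F θ d 1| ∧
    |rho d (tc F θ)| ≤ 1 / 4 ∧ g ≤ |tc F θ d 1| ∧ |tc F θ d 1| ≤ 2 * g}

theorem vg (hNTH : S_NTH) (hINV : S_INV) (hCMG : S_CMG) {d : ℕ} (hd : 7 ≤ d) {A Cz CD : ℝ}
    (hA : 1 ≤ A) (hCz : 1 ≤ Cz) {H T : ℕ} (hH : 1 ≤ H) (hHT : H + 1 ≤ T)
    (hT : ∀ (F : MvPolynomial (Fin 2) ℤ) (θ : ℝ), F ∈ PBox d (2 * H) → Th d F θ → Gd d 2 A H F θ)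
    (hZ : ∀ (F : MvPolynomial (Fin 2) ℤ) (θ : ℝ), Gd d 2 A H F θ → F ∉ RS d H → F ∉ RD d H →
      (Ap d F θ A H T (A * H)).Finite ∧ ((Ap d F θ A H T (A * H)).ncard : ℝ) ≤
        Cz * (H / |tc F θ d 1|) * (H : ℝ) ^ ((1 : ℝ) / 7))
    (hD : ∀ D : ℝ, 1 / 16 ≤ D * H →
      (Nat.card {F | F ∈ PBox d (2 * H) ∧ ∃ θ : ℝ, Th d F θ ∧ |tc F θ d 1| ≤ D * H ∧
        |rho d (tc F θ)| ≤ 1 / 4} : ℝ) ≤ CD * D * (H : ℝ) ^ (NC d - 1))
    {g : ℝ} (hg : 1 / 16 ≤ g) :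
    (Nat.card (VG d A H T g) : ℝ) * H ≤
      2 * d * Cz * CD * (H : ℝ) ^ ((1 : ℝ) / 7) * (H : ℝ) ^ (NC d - 1) := by
  have hHr : (1 : ℝ) ≤ H := by exact_mod_cast hH
  have hH0 : (0 : ℝ) < H := by linarith
  have hg0 : 0 < g := by linarith
  have hp7 : 0 ≤ (H : ℝ) ^ ((1 : ℝ) / 7) := by positivity
  have key := hCMG d H 0 (d * (Cz * (H / g) * (H : ℝ) ^ ((1 : ℝ) / 7))) (VG d A H T g)
    {F | F ∈ PBox d (2 * H) ∧ F ∉ RS d H ∧ F ∉ RD d H ∧ ∃ θ : ℝ, Th d F θ ∧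
      |tc F θ d 1| ≤ 2 * g ∧ |rho d (tc F θ)| ≤ 1 / 4}
    (fun F => {p | ∃ θ, (Th d F θ ∧ g ≤ |tc F θ d 1|) ∧ p ∈ Ap d F θ A H T (A * H)})
    (fun F hF => hF.1) ((finite_pbox d (2 * H)).subset fun F hF => hF.1) (by positivity)
    (by
      rintro F ⟨hFb, hRS, hRD, x, y, θ, hx1, hx2, hyx, hF0, hTh, hyθ, hrho, hg1, hg2⟩
      have hx0 : 0 ≤ x := by
        have : (0 : ℤ) ≤ T := by positivity
        omega
      have hxa : |x| = x := abs_of_nonneg hx0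
      refine ⟨(x, y), ?_, hF0, fun G hG hGv => ?_⟩
      · show (H : ℤ) + 1 ≤ |x|
        rw [hxa]
        have : ((H + 1 : ℕ) : ℤ) ≤ T := by exact_mod_cast hHT
        push_cast at this
        omega
      · obtain ⟨i1, i2, i3⟩ := hINV.1 d F G (by omega) (hG.1.trans (by omega))
        have hbox : F + G ∈ PBox d (2 * H) := by
          have h1 := pbox_add hFb (pbox_mono (d' := d) (by omega) le_rfl hG)
          have h2 : H + (0 + 1) * H = 2 * H := by ring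
          rwa [h2] at h1
        have hTh' := Th_congr (i1 θ) hTh
        refine ⟨⟨hbox, notRS i2 hRS, notRD i2 i3 hRD, θ, hTh', ?_, ?_⟩, θ, ⟨hTh', ?_⟩, ?_⟩
        · rw [i1]
          exact hg2
        · rw [i3]
          exact hrho
        · rw [i1]
          exact hg1
        · refine ⟨?_, ?_, ?_, ?_⟩
          · show (T : ℝ) ≤ (x : ℝ)
            exact_mod_cast hx1
          · show (x : ℝ) ≤ 2 * (T : ℝ)
            exact_mod_cast hx2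
          · rw [i1]
            exact hyθ
          · have h1 : eval ![x, y] (F + G) = eval ![x, y] G := by
              rw [map_add, hF0, zero_add]
            show |((eval ![x, y] (F + G) : ℤ) : ℝ)| ≤ A * H
            rw [h1]
            have h2 : |((eval ![x, y] G : ℤ) : ℝ)| ≤ (H : ℝ) := by
              have h3 : |eval ![x, y] G| ≤ ((0 : ℕ) + 1) * H * |x| ^ 0 := hGv
              have h4 : |eval ![x, y] G| ≤ (H : ℤ) := by
                refine h3.trans (le_of_eq ?_)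
                simp
              exact_mod_cast h4
            calc _ ≤ (H : ℝ) := h2
              _ = 1 * H := (one_mul _).symm
              _ ≤ A * H := mul_le_mul_of_nonneg_right hA hH0.le)
    (by
      rintro F ⟨hFb, hRS, hRD, -⟩
      refine cand_bound (hNTH d F) _ (fun θ h => h.1) _ (by positivity) ?_
      rintro θ ⟨hTh, hg1⟩
      obtain ⟨h1, h2⟩ := hZ F θ (hT F θ hFb hTh) hRS hRD
      refine ⟨h1, h2.trans ?_⟩
      gcongr)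
  have hB : (Nat.card {F | F ∈ PBox d (2 * H) ∧ F ∉ RS d H ∧ F ∉ RD d H ∧ ∃ θ : ℝ, Th d F θ ∧
      |tc F θ d 1| ≤ 2 * g ∧ |rho d (tc F θ)| ≤ 1 / 4} : ℝ) ≤
      CD * (2 * g / H) * (H : ℝ) ^ (NC d - 1) := by
    have e1 : 2 * g / H * H = 2 * g := by field_simp
    have h1 := hD (2 * g / H) (by rw [e1]; linarith)
    rw [e1] at h1
    refine le_trans ?_ h1
    have h2 := Nat.card_mono (s := {F | F ∈ PBox d (2 * H) ∧ F ∉ RS d H ∧ F ∉ RD d H ∧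
      ∃ θ : ℝ, Th d F θ ∧ |tc F θ d 1| ≤ 2 * g ∧ |rho d (tc F θ)| ≤ 1 / 4})
      (t := {F | F ∈ PBox d (2 * H) ∧ ∃ θ : ℝ, Th d F θ ∧ |tc F θ d 1| ≤ 2 * g ∧
        |rho d (tc F θ)| ≤ 1 / 4}) ((finite_pbox d (2 * H)).subset fun F hF => hF.1)
      (fun F hF => ⟨hF.1, hF.2.2.2⟩)
    exact_mod_cast h2
  calc (Nat.card (VG d A H T g) : ℝ) * H
      ≤ (Nat.card (VG d A H T g) : ℝ) * ((H : ℝ) + 1) ^ (0 + 1) := by
        rw [zero_add, pow_one]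
        exact mul_le_mul_of_nonneg_left (by linarith) (by positivity)
    _ ≤ _ := key
    _ ≤ d * (Cz * (H / g) * (H : ℝ) ^ ((1 : ℝ) / 7)) *
        (CD * (2 * g / H) * (H : ℝ) ^ (NC d - 1)) :=
        mul_le_mul_of_nonneg_left hB (by positivity)
    _ = _ := by
        field_simp

/-- the number of the dyadic values -/
theorem dy {A : ℝ} (hA : 1 ≤ A) {H : ℕ} (hH : 1 ≤ H) : ∃ N : ℕ, 16 * (A * H) < 2 ^ N ∧
    (N : ℝ) ≤ (84 * (16 * A) ^ ((1 : ℝ) / 42) + 1) * (H : ℝ) ^ ((1 : ℝ) / 42) := by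
  have hHr : (1 : ℝ) ≤ H := by exact_mod_cast hH
  have hH0 : (0 : ℝ) < H := by linarith
  have h16 : (1 : ℝ) ≤ 16 * (A * H) := by nlinarith
  obtain ⟨n, hn1, hn2⟩ := exists_nat_pow_near h16 (by norm_num : (1 : ℝ) < 2)
  refine ⟨n + 1, hn2, ?_⟩
  have h1 : (n : ℝ) * Real.log 2 ≤ Real.log (16 * (A * H)) := by
    have h2 := Real.log_le_log (by positivity) hn1
    rwa [Real.log_pow] at h2
  have h2 : Real.log (16 * (A * H)) ≤ (16 * (A * H)) ^ ((1 : ℝ) / 42) / (1 / 42) :=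
    Real.log_le_rpow_div (by positivity) (by norm_num)
  have h3 : (1 : ℝ) / 2 ≤ Real.log 2 := by linarith [Real.log_two_gt_d9]
  have h4 : (16 * (A * H)) ^ ((1 : ℝ) / 42) = (16 * A) ^ ((1 : ℝ) / 42) * (H : ℝ) ^ ((1 : ℝ) / 42) := by
    rw [← Real.mul_rpow (by positivity) (by positivity)]
    congr 1
    ring
  rw [h4] at h2
  have h5 : (n : ℝ) * (1 / 2) ≤ n * Real.log 2 := mul_le_mul_of_nonneg_left h3 (by positivity)
  have h6 : (1 : ℝ) ≤ (H : ℝ) ^ ((1 : ℝ) / 42) := Real.one_le_rpow hHr (by norm_num)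
  push_cast
  have h7 : (16 * A) ^ ((1 : ℝ) / 42) * (H : ℝ) ^ ((1 : ℝ) / 42) / (1 / 42) =
      42 * ((16 * A) ^ ((1 : ℝ) / 42) * (H : ℝ) ^ ((1 : ℝ) / 42)) := by ring
  rw [h7] at h2
  nlinarith

end Pool.Agent.Q208.UG_VDG

namespace Pool.Agent.Q208

open Finset MvPolynomial
open Pool.Agent.Q256.UP (PBox card_pbox finite_pbox pbox_add)
open Pool.Agent.Q256.UI (ev tc Q kap rho)
open Pool.Agent.Q256.UG Pool.Agent.Q208.UG_VND Pool.Agent.Q208.UG_VDG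

theorem vdg : S_TCB → S_CZG → S_NTH → S_INV → S_CMG → S_DGC → S_VDG := by
  intro hTCB hCZG hNTH hINV hCMG hDGC d hd
  classical
  obtain ⟨A1, hA1, hT⟩ := hTCB d 2 (by omega)
  refine ⟨A1, hA1, fun A hA => ?_⟩
  have hA' : 1 ≤ A := hA1.trans hA
  obtain ⟨Cz, hCz, hZ⟩ := hCZG d 2 A hd hA'
  obtain ⟨CD, hCD, hD⟩ := hDGC d 2 (by omega)
  obtain ⟨H1, hH1⟩ := exists_nat_ge (max (Cz ^ 2) 2)
  have hH1z : Cz ^ 2 ≤ H1 := (le_max_left _ _).trans hH1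
  have hH12 : 2 ≤ H1 := by exact_mod_cast (le_max_right _ _).trans hH1
  have hNC := NC_ge hd
  have hNCr : (36 : ℝ) ≤ NC d := by exact_mod_cast hNC
  obtain ⟨Cs, hCs⟩ : ∃ Cs : ℝ, Cs = (2 * (H1 : ℝ) + 1) ^ NC d := ⟨_, rfl⟩
  obtain ⟨Cb, hCb⟩ : ∃ Cb : ℝ, Cb = (84 * (16 * A) ^ ((1 : ℝ) / 42) + 1) *
    (2 * d * Cz * CD) := ⟨_, rfl⟩
  have hCs1 : 1 ≤ Cs := by
    rw [hCs]
    exact one_le_pow₀ (by have : (0 : ℝ) ≤ H1 := by positivity
                          linarith)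
  refine ⟨max Cs Cb, le_max_of_le_left hCs1, fun H T hH hHT => ?_⟩
  have hH1r : (1 : ℝ) ≤ H := by exact_mod_cast hH
  have hH0 : (0 : ℝ) < H := by linarith
  have hHp : (1 : ℝ) ≤ (H : ℝ) ^ ((NC d : ℝ) - 11 / 6) :=
    Real.one_le_rpow hH1r (by linarith)
  have hsubV : VD d A H T ⊆ PBox d H := fun F hF => hF.1
  rcases le_total H H1 with hle | hge
  · -- small heights
    have h1 : (Nat.card (VD d A H T) : ℝ) ≤ ((2 * H + 1) ^ NC d : ℕ) := by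
      exact_mod_cast card_le_box hsubV
    have h2 : (((2 * H + 1) ^ NC d : ℕ) : ℝ) ≤ Cs := by
      rw [hCs]
      push_cast
      have : (H : ℝ) ≤ H1 := by exact_mod_cast hle
      gcongr
    calc _ ≤ Cs := h1.trans h2
      _ ≤ max Cs Cb * 1 := by rw [mul_one]; exact le_max_left _ _
      _ ≤ _ := mul_le_mul_of_nonneg_left hHp (by linarith [le_max_left Cs Cb])
  -- large heights
  have hH2 : 2 ≤ H := hH12.trans hge
  have hHT1 := big hd hH2 hHT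
  have hT0 : (0 : ℝ) < T := by
    have : 0 < T := by omega
    exact_mod_cast this
  have hTZ : Cz * (H : ℝ) ^ 5 ≤ T := by
    have h1 : (H : ℝ) ^ 11 ≤ (T : ℝ) ^ 2 := by
      have h2 : H ^ 11 ≤ T ^ 2 := (Nat.pow_le_pow_right (by omega) (by omega)).trans hHT
      exact_mod_cast h2
    have h2 : (Cz * (H : ℝ) ^ 5) ^ 2 ≤ (T : ℝ) ^ 2 := by
      refine le_trans ?_ h1
      have h3 : Cz ^ 2 ≤ H := hH1z.trans (by exact_mod_cast hge)
      calc (Cz * (H : ℝ) ^ 5) ^ 2 = Cz ^ 2 * (H : ℝ) ^ 10 := by ring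
        _ ≤ H * (H : ℝ) ^ 10 := mul_le_mul_of_nonneg_right h3 (by positivity)
        _ = (H : ℝ) ^ 11 := by ring
    exact (pow_le_pow_iff_left₀ (by positivity) hT0.le two_ne_zero).1 h2
  obtain ⟨N, hN1, hN2⟩ := dy hA' hH
  have hVG := fun (g : ℝ) (hg : 1 / 16 ≤ g) => vg hNTH hINV hCMG hd (Cz := Cz) (CD := CD) hA' hCz
    hH hHT1 (fun F θ hF hTh => hT A hA H F θ hH hF hTh)
    (fun F θ hG h1 h2 => hZ H T θ F hH hTZ hG h1 h2) (fun D hD' => hD H D hH hD') hg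
  obtain ⟨M, hM⟩ : ∃ M : ℝ, M = 2 * d * Cz * CD * (H : ℝ) ^ ((1 : ℝ) / 7) *
    (H : ℝ) ^ (NC d - 1) := ⟨_, rfl⟩
  have hM0 : 0 ≤ M := by
    rw [hM]
    positivity
  have hcov : VD d A H T ⊆ ⋃ i ∈ range N, VG d A H T (2 ^ i / 16) := by
    rintro F ⟨hFb, hRS, hRD, x, y, θ, hx1, hx2, hyx, hF0, hTh, hyθ, hrho⟩
    have hGd := hT A hA H F θ hH (pbox_mono le_rfl (by omega) hFb) hTh
    have h1 := hTh.one
    have ht0 : 0 < |tc F θ d 1| := by linarith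
    have h2 : |tc F θ d 1| ≤ A * H := by
      have h3 := hGd.k1
      rwa [le_div_iff₀ ht0, one_mul] at h3
    obtain ⟨i, hi1, hi2⟩ := exists_nat_pow_near (x := 16 * |tc F θ d 1|) (by linarith)
      (by norm_num : (1 : ℝ) < 2)
    have hiN : i < N := by
      have h3 : (2 : ℝ) ^ i < 2 ^ N := by linarith
      exact (pow_lt_pow_iff_right₀ (by norm_num : (1 : ℝ) < 2)).1 h3
    rw [Set.mem_iUnion₂]
    refine ⟨i, mem_range.2 hiN, hFb, hRS, hRD, x, y, θ, hx1, hx2, hyx, hF0, hTh, hyθ, hrho,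
      by linarith, ?_⟩
    rw [pow_succ] at hi2
    linarith
  have hU := biUnion_bound (range N) (fun i => VG d A H T (2 ^ i / 16)) (M / H) fun i _ => by
    refine ⟨(finite_pbox d H).subset fun F hF => hF.1, ?_⟩
    have h1 := hVG (2 ^ i / 16) (by
      have : (1 : ℝ) ≤ 2 ^ i := one_le_pow₀ (by norm_num)
      linarith)
    rw [← hM] at h1
    rw [le_div_iff₀ hH0]
    rw [← Nat.card_coe_set_eq]
    exact h1
  have h1 : (Nat.card (VD d A H T) : ℝ) ≤ N * (M / H) := by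
    have h2 : Nat.card (VD d A H T) ≤ (⋃ i ∈ range N, VG d A H T (2 ^ i / 16)).ncard := by
      rw [Nat.card_coe_set_eq]
      exact Set.ncard_le_ncard hcov hU.1
    have h3 := hU.2
    rw [card_range] at h3
    exact le_trans (by exact_mod_cast h2) h3
  have e1 : (H : ℝ) ^ ((1 : ℝ) / 42) * ((H : ℝ) ^ ((1 : ℝ) / 7) * (H : ℝ) ^ (NC d - 1) / H) =
      (H : ℝ) ^ ((NC d : ℝ) - 11 / 6) := by
    have e2 : (H : ℝ) ^ (NC d - 1) = (H : ℝ) ^ ((NC d : ℝ) - 1) := by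
      rw [← Real.rpow_natCast, Nat.cast_sub (by omega)]
      norm_num
    rw [e2]
    have e3 : (H : ℝ) ^ ((1 : ℝ) / 7) * (H : ℝ) ^ ((NC d : ℝ) - 1) / H =
        (H : ℝ) ^ ((1 : ℝ) / 7 + ((NC d : ℝ) - 1) - 1) := by
      rw [← Real.rpow_add hH0, ← Real.rpow_sub_one hH0.ne']
    rw [e3, ← Real.rpow_add hH0]
    congr 1
    ring
  calc (Nat.card (VD d A H T) : ℝ) ≤ N * (M / H) := h1
    _ ≤ ((84 * (16 * A) ^ ((1 : ℝ) / 42) + 1) * (H : ℝ) ^ ((1 : ℝ) / 42)) * (M / H) :=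
        mul_le_mul_of_nonneg_right hN2 (by positivity)
    _ = Cb * ((H : ℝ) ^ ((1 : ℝ) / 42) *
        ((H : ℝ) ^ ((1 : ℝ) / 7) * (H : ℝ) ^ (NC d - 1) / H)) := by
        rw [hM, hCb]
        ring
    _ = Cb * (H : ℝ) ^ ((NC d : ℝ) - 11 / 6) := by rw [e1]
    _ ≤ _ := mul_le_mul_of_nonneg_right (le_max_right _ _) (by positivity)

end Pool.Agent.Q208
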