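import Pool.Agent.Q16.XP.Stm2

/-!
# Project XP (helper16), job E6
-/

set_option autoImplicit false

namespace Pool.Agent.Q208.XP_E6

open Q16.XP

theorem mf_mul {p a b : ℕ} (hp : p.Prime) (ha : a.minFac = p) (hb : b.minFac = p) (h1 : 1 < a) :
    (a * b).minFac = p := by
  apply le_antisymm
  · exact Nat.minFac_le_of_dvd hp.two_le (Dvd.dvd.mul_right (ha ▸ Nat.minFac_dvd a) b)
  · have hne : a * b ≠ 1 := by
      intro h
      have := Nat.eq_one_of_mul_eq_one_right h
      omega
    have hq := Nat.minFac_prime hne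
    rcases (Nat.Prime.dvd_mul hq).1 (Nat.minFac_dvd (a * b)) with h | h
    · calc p = a.minFac := ha.symm
        _ ≤ _ := Nat.minFac_le_of_dvd hq.two_le h
    · calc p = b.minFac := hb.symm
        _ ≤ _ := Nat.minFac_le_of_dvd hq.two_le h

theorem ds_succ {p n : ℕ} (hp : 1 < p) (hn : 0 < n) :
    (Nat.digits p n).sum = n % p + (Nat.digits p (n / p)).sum := by
  rw [Nat.digits_def' hp hn, List.sum_cons]

theorem ds_mul {p : ℕ} (hp : 1 < p) (m : ℕ) : (Nat.digits p (p * m)).sum = (Nat.digits p m).sum := by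
  rcases Nat.eq_zero_or_pos m with h | h
  · rw [h, Nat.mul_zero]
  · rw [ds_succ hp (Nat.mul_pos (by omega) h), Nat.mul_mod_right, Nat.mul_div_cancel_left _ (by omega),
      Nat.zero_add]

theorem ds_pow {p : ℕ} (hp : 1 < p) (t m : ℕ) : (Nat.digits p (p ^ t * m)).sum = (Nat.digits p m).sum := by
  induction t with
  | zero => rw [pow_zero, one_mul]
  | succ t ih => rw [pow_succ', Nat.mul_assoc, ds_mul hp, ih]

theorem ds_rd {p n : ℕ} (hp : p.Prime) (hn : 0 < n) :
    (Nat.digits p (rd p n)).sum + 1 ≤ (Nat.digits p n).sum := by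
  have h1 : p ^ n.factorization p * (n / p ^ n.factorization p) = n := Nat.ordProj_mul_ordCompl_eq_self n p
  have h2 : ¬ p ∣ n / p ^ n.factorization p := Nat.not_dvd_ordCompl hp (by omega)
  unfold rd dg
  generalize n.factorization p = t at *
  generalize n / p ^ t = m at *
  subst h1
  have hm : 0 < m := by
    rcases Nat.eq_zero_or_pos m with h | h
    · exact absurd (h ▸ dvd_zero p) h2
    · exact h
  have h3 : 0 < m % p := Nat.pos_of_ne_zero fun h => h2 (Nat.dvd_of_mod_eq_zero h)
  have h4 : p ^ t * m - m % p * p ^ t = p ^ t * (p * (m / p)) := by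
    have e := Nat.div_add_mod m p
    have e1 : p ^ t * m = p ^ t * (p * (m / p)) + m % p * p ^ t := by
      conv_lhs => rw [← e]
      ring
    omega
  rw [h4, ds_pow hp.one_lt, ds_mul hp.one_lt, ds_pow hp.one_lt, ds_succ hp.one_lt hm]
  omega

theorem ds_pos {p n : ℕ} (hp : p.Prime) (hn : 0 < n) : 1 ≤ (Nat.digits p n).sum := by
  have := ds_rd hp hn
  omega

theorem DSf_le {p : ℕ} (hp : p.Prime) (k : ℕ) : ∀ n, 0 < n →
    DSf p (G3 p) k n + 1 ≤ (Nat.digits p n).sum := by
  induction k with
  | zero =>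
    intro n hn
    unfold DSf
    exact ds_pos hp hn
  | succ k ih =>
    intro n hn
    unfold DSf
    split_ifs with h
    · exact ds_pos hp hn
    · have h1 := ih (rd p n) (Nat.pos_of_ne_zero h)
      have h2 := ds_rd hp hn
      have h3 : G3 p (n.factorization p) (dg p n) ((rd p n).factorization p) ≤ 1 := by
        unfold G3
        split_ifs <;> omega
      omega

theorem t_E6 (hD : S_D1) : S_E6 := by
  intro J
  refine ⟨J + 1, fun n => ⟨min (DS n.minFac (G3 n.minFac) (ex n)) J, by omega⟩, ?_⟩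
  intro p a b h1 h2 ha hb hJ heq
  have hp : p.Prime := ha ▸ Nat.minFac_prime (by omega)
  have ha0 : a ≠ 0 := by omega
  have hb0 : b ≠ 0 := by omega
  have hexa : ex a = a.factorization p := by unfold ex; rw [ha]
  have hexb : ex b = b.factorization p := by unfold ex; rw [hb]
  have h1' : 1 < a ^ b := Nat.one_lt_pow hb0 h1
  have hpow : (a ^ b).minFac = p := by rw [Nat.pow_minFac hb0, ha]
  have habb : (a ^ b * b).minFac = p := mf_mul hp hpow hb h1'
  have x3 : ex (a ^ b * b) = ex b + b * ex a := by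
    rw [hexa, hexb]
    unfold ex
    rw [habb, Nat.factorization_mul (by omega) hb0, Finsupp.add_apply, Nat.factorization_pow,
      Finsupp.smul_apply, smul_eq_mul, add_comm]
  have pa : 0 < ex a := by
    rw [hexa]
    exact hp.factorization_pos_of_dvd ha0 (ha ▸ Nat.minFac_dvd a)
  have pb : 0 < ex b := by
    rw [hexb]
    exact hp.factorization_pos_of_dvd hb0 (hb ▸ Nat.minFac_dvd b)
  have hv : (b * ex a).factorization p = ex b + (ex a).factorization p := by
    rw [Nat.factorization_mul hb0 (by omega), Finsupp.add_apply, hexb]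
  have hdv : p ^ ex b ∣ b * ex a := by
    rw [hexb]
    exact Dvd.dvd.mul_right (Nat.ordProj_dvd _ _) _
  have y := hD p hp (G3 p) (ex b) (b * ex a) (ex b) pb (Nat.mul_pos (by omega) pa) hdv
    (Nat.lt_pow_self hp.one_lt)
  have hg : G3 p (Nat.log p (ex b)) (ex b / p ^ Nat.log p (ex b)) ((b * ex a).factorization p) = 1 := by
    unfold G3
    rw [if_pos]
    rw [hv]
    have := Nat.pow_log_le_self p (x := ex b) (by omega)
    omega
  rw [hg] at y
  have hlt : DS p (G3 p) (ex b) + 1 ≤ (Nat.digits p (ex b)).sum := DSf_le hp _ _ pb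
  have e := congrArg Fin.val heq
  simp only [hb, habb, x3] at e
  rw [y] at e
  omega

end Pool.Agent.Q208.XP_E6
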